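import Pool.Agent.Lib.MP_b6f35e_al.WH.Defs

/-!
# The second summand of the degree one homology: `Z_G(H)_ab ⊗ K_0(F[H])`
-/

set_option autoImplicit false

noncomputable section

namespace Pool.Agent.Lib.MPb6f35e.W2

open Pool.Agent.Lib.MPb6f35e.WH

universe u v w

/-- Generators of the second summand: a finite subgroup `H` of `G`, an element `z` of its
centralizer, an idempotent matrix `e` over `F[H]`. -/
structure Gen (F : Type u) [CommRing F] (G : Type v) [Group G] where
  /-- the finite subgroup -/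
  H : FinSub G
  /-- the element of the centralizer -/
  z : G
  comm : ∀ h ∈ H.1, z * h = h * z
  /-- the size of the matrix -/
  n : ℕ
  /-- the idempotent matrix -/
  e : Matrix (Fin n) (Fin n) (MonoidAlgebra F H.1)
  idem : e * e = e

lemma comm_mul {G : Type v} [Group G] {H : Subgroup G} {z z' : G}
    (h : ∀ x ∈ H, z * x = x * z) (h' : ∀ x ∈ H, z' * x = x * z') :
    ∀ x ∈ H, z * z' * x = x * (z * z') := by
  intro x hx
  rw [mul_assoc, h' x hx, ← mul_assoc, h x hx, mul_assoc]

lemma comm_conj {G : Type v} [Group G] {H K : Subgroup G} {g z : G}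
    (hg : ∀ x ∈ H, g * x * g⁻¹ ∈ K) (h : ∀ x ∈ K, z * x = x * z) :
    ∀ x ∈ H, g⁻¹ * z * g * x = x * (g⁻¹ * z * g) := by
  intro x hx
  have := h _ (hg x hx)
  have h2 : g⁻¹ * (z * (g * x * g⁻¹)) * g = g⁻¹ * (g * x * g⁻¹ * z) * g := by rw [this]
  simpa [mul_assoc] using h2

lemma idem_map {A : Type u} {B : Type v} [Ring A] [Ring B] (f : A →+* B) {n : ℕ}
    {e : Matrix (Fin n) (Fin n) A} (h : e * e = e) : e.map f * e.map f = e.map f := by
  rw [← Matrix.map_mul, h]

/-- Relations of the second summand: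
`(H, z z', e) = (H, z, e) + (H, z', e)`; `(H, z, e) = (H, z, f)` if `e = a b` and `f = b a`;
`(H, z, e ⊕ f) = (H, z, e) + (H, z, f)`; and `(K, z, g_* e) = (H, g⁻¹ z g, e)` if
`g H g⁻¹ ≤ K` and `z` centralizes `K`. -/
inductive Rel (F : Type u) [CommRing F] (G : Type v) [Group G] :
    FreeAbelianGroup (Gen F G) → Prop
  | mul (H : FinSub G) (z z' : G) (hz : ∀ h ∈ H.1, z * h = h * z)
      (hz' : ∀ h ∈ H.1, z' * h = h * z') (n : ℕ)
      (e : Matrix (Fin n) (Fin n) (MonoidAlgebra F H.1)) (he : e * e = e) :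
      Rel F G (FreeAbelianGroup.of ⟨H, z * z', comm_mul hz hz', n, e, he⟩
        - FreeAbelianGroup.of ⟨H, z, hz, n, e, he⟩ - FreeAbelianGroup.of ⟨H, z', hz', n, e, he⟩)
  | equiv (H : FinSub G) (z : G) (hz : ∀ h ∈ H.1, z * h = h * z) (m n : ℕ)
      (a : Matrix (Fin m) (Fin n) (MonoidAlgebra F H.1))
      (b : Matrix (Fin n) (Fin m) (MonoidAlgebra F H.1))
      (he : a * b * (a * b) = a * b) (hf : b * a * (b * a) = b * a) :
      Rel F G (FreeAbelianGroup.of ⟨H, z, hz, m, a * b, he⟩
        - FreeAbelianGroup.of ⟨H, z, hz, n, b * a, hf⟩)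
  | block (H : FinSub G) (z : G) (hz : ∀ h ∈ H.1, z * h = h * z) (m n : ℕ)
      (e : Matrix (Fin m) (Fin m) (MonoidAlgebra F H.1))
      (f : Matrix (Fin n) (Fin n) (MonoidAlgebra F H.1))
      (he : e * e = e) (hf : f * f = f)
      (d : Matrix (Fin (m + n)) (Fin (m + n)) (MonoidAlgebra F H.1)) (hd : d * d = d)
      (h : d = Matrix.reindex finSumFinEquiv finSumFinEquiv (Matrix.fromBlocks e 0 0 f)) :
      Rel F G (FreeAbelianGroup.of ⟨H, z, hz, m + n, d, hd⟩
        - FreeAbelianGroup.of ⟨H, z, hz, m, e, he⟩ - FreeAbelianGroup.of ⟨H, z, hz, n, f, hf⟩)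
  | conj (H K : FinSub G) (g : G) (h : ∀ x ∈ H.1, g * x * g⁻¹ ∈ K.1) (z : G)
      (hz : ∀ x ∈ K.1, z * x = x * z) (n : ℕ)
      (e : Matrix (Fin n) (Fin n) (MonoidAlgebra F H.1)) (he : e * e = e) :
      Rel F G (FreeAbelianGroup.of ⟨K, z, hz, n,
          e.map (MonoidAlgebra.mapDomainRingHom F (conjHom g H.1 K.1 h)), idem_map _ he⟩
        - FreeAbelianGroup.of ⟨H, g⁻¹ * z * g, comm_conj h hz, n, e, he⟩)

/-- The second summand: generators modulo relations. -/
def S2 (F : Type u) [CommRing F] (G : Type v) [Group G] : Type (max u v) :=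
  FreeAbelianGroup (Gen F G) ⧸ AddSubgroup.closure {x | Rel F G x}

instance (F : Type u) [CommRing F] (G : Type v) [Group G] : AddCommGroup (S2 F G) :=
  inferInstanceAs (AddCommGroup (FreeAbelianGroup (Gen F G) ⧸ AddSubgroup.closure {x | Rel F G x}))

/-- The class of a generator. -/
def S2.cls {F : Type u} [CommRing F] {G : Type v} [Group G] (x : Gen F G) : S2 F G :=
  QuotientAddGroup.mk (FreeAbelianGroup.of x)

/-- Universal property. -/
def S2.lift {F : Type u} [CommRing F] {G : Type v} [Group G] {A : Type w} [AddCommGroup A]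
    (f : Gen F G → A) (h : ∀ x, Rel F G x → FreeAbelianGroup.lift f x = 0) : S2 F G →+ A :=
  QuotientAddGroup.lift (AddSubgroup.closure {x | Rel F G x}) (FreeAbelianGroup.lift f)
    (by
      intro x hx
      have : AddSubgroup.closure {x | Rel F G x} ≤ (FreeAbelianGroup.lift f).ker := by
        rw [AddSubgroup.closure_le]
        intro y hy
        exact h y hy
      exact this hx)

@[simp] lemma S2.lift_cls {F : Type u} [CommRing F] {G : Type v} [Group G] {A : Type w}
    [AddCommGroup A] (f : Gen F G → A) (h : ∀ x, Rel F G x → FreeAbelianGroup.lift f x = 0)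
    (x : Gen F G) : S2.lift f h (S2.cls x) = f x := by
  show FreeAbelianGroup.lift _ (FreeAbelianGroup.of _) = _
  simp

lemma S2.ext {F : Type u} [CommRing F] {G : Type v} [Group G] {A : Type w}
    [AddCommGroup A] {f g : S2 F G →+ A} (h : ∀ x : Gen F G, f (S2.cls x) = g (S2.cls x)) :
    f = g := by
  apply QuotientAddGroup.addMonoidHom_ext
  ext x
  exact h x

lemma S2.rel {F : Type u} [CommRing F] {G : Type v} [Group G] {x : FreeAbelianGroup (Gen F G)}
    (h : Rel F G x) : (QuotientAddGroup.mk x : S2 F G) = 0 :=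
  (QuotientAddGroup.eq_zero_iff _).2 (AddSubgroup.subset_closure h)

/-! ### the map to `K_1(F[G])` -/

section tw

variable {A : Type u} [Ring A] {ι κ τ : Type w} [Fintype ι] [Fintype κ] [Fintype τ]

omit [Fintype ι] [Fintype τ] in
/-- `M (z N) = z (M N)` if `z` commutes with the entries of `M`. -/
lemma mul_smul_of_comm {z : A} {M : Matrix ι κ A} (h : ∀ i j, z * M i j = M i j * z)
    (N : Matrix κ τ A) : M * (z • N) = z • (M * N) := by
  ext i j
  simp only [Matrix.mul_apply, Matrix.smul_apply, smul_eq_mul, Finset.mul_sum]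
  refine Finset.sum_congr rfl fun k _ => ?_
  rw [← mul_assoc, ← mul_assoc, h i k]

variable [DecidableEq ι]

lemma tw_mul (z z' : A) (e : Matrix ι ι A) (he : e * e = e)
    (hz' : ∀ i j, z' * e i j = e i j * z') :
    (1 + (z - 1) • e) * (1 + (z' - 1) • e) = 1 + (z * z' - 1) • e := by
  have h1 : ∀ i j, (z' - 1) * e i j = e i j * (z' - 1) := by
    intro i j
    rw [sub_mul, mul_sub, hz', one_mul, mul_one]
  rw [add_mul, one_mul, mul_add, mul_one, Matrix.smul_mul, mul_smul_of_comm h1, he,
    smul_smul, add_assoc, ← add_smul, ← add_smul]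
  congr 2
  noncomm_ring

/-- The unit `1 - e + z e = 1 + (z - 1) e`. -/
def tw (z : Aˣ) (e : Matrix ι ι A) (he : e * e = e) (hz : ∀ i j, (z : A) * e i j = e i j * z) :
    (Matrix ι ι A)ˣ where
  val := 1 + ((z : A) - 1) • e
  inv := 1 + (((z⁻¹ : Aˣ) : A) - 1) • e
  val_inv := by
    rw [tw_mul _ _ e he ?_, Units.mul_inv, sub_self, zero_smul, add_zero]
    intro i j
    exact ((show Commute (z : A) (e i j) from hz i j).units_inv_left).eq
  inv_val := by
    rw [tw_mul _ _ e he hz, Units.inv_mul, sub_self, zero_smul, add_zero]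

end tw

/-- `F[H] → F[G]`. -/
def toG {F : Type u} [CommRing F] {G : Type v} [Group G] (H : FinSub G) :
    MonoidAlgebra F H.1 →+* MonoidAlgebra F G :=
  MonoidAlgebra.mapDomainRingHom F H.1.subtype

lemma comm_toG {F : Type u} [CommRing F] {G : Type v} [Group G] (H : FinSub G) {z : G}
    (hz : ∀ h ∈ H.1, z * h = h * z) (a : MonoidAlgebra F H.1) :
    (gUnit F z : MonoidAlgebra F G) * toG H a = toG H a * (gUnit F z : MonoidAlgebra F G) := by
  have e1 : (gUnit F z : MonoidAlgebra F G) = MonoidAlgebra.single z 1 := rfl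
  induction a using MonoidAlgebra.induction_linear with
  | zero => simp
  | add x y hx hy => simp only [map_add, mul_add, add_mul, hx, hy]
  | single x r =>
    rw [e1]
    simp [toG, MonoidAlgebra.single_mul_single, hz x x.2]

/-- The invertible matrix `1 - e + z e` over `F[G]`. -/
def genUnit {F : Type u} [CommRing F] {G : Type v} [Group G] (x : Gen F G) :
    (Matrix (Fin x.n) (Fin x.n) (MonoidAlgebra F G))ˣ :=
  tw (gUnit F x.z) (x.e.map (toG x.H)) (idem_map _ x.idem)
    fun i j => comm_toG x.H x.comm (x.e i j)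

end Pool.Agent.Lib.MPb6f35e.W2
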