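import Pool.Agent.Lib.MP_b6f35e_al.WH.K
import Pool.Agent.Lib.MP_b6f35e_al.W2.Defs

/-!
# The map from the second summand to `K_1(F[G])`: `(H, z, e) ↦ [1 - e + z e]`
-/

set_option autoImplicit false

noncomputable section

namespace Pool.Agent.Lib.MPb6f35e.W2

open Pool.Agent.Lib.MPb6f35e.WH

universe u v w

variable {F : Type u} [CommRing F] {G : Type v} [Group G]

lemma gUnit_mul (z z' : G) : gUnit F (z * z') = gUnit F z * gUnit F z' := by
  simp [gUnit, map_mul]

lemma gUnit_val (z : G) : (gUnit F z : MonoidAlgebra F G) = MonoidAlgebra.single z 1 := rfl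

lemma genUnit_val (x : Gen F G) :
    (genUnit x : Matrix (Fin x.n) (Fin x.n) (MonoidAlgebra F G)) =
      1 + ((gUnit F x.z : MonoidAlgebra F G) - 1) • x.e.map (toG x.H) := rfl

lemma genUnit_mul (H : FinSub G) (z z' : G) (hz : ∀ h ∈ H.1, z * h = h * z)
    (hz' : ∀ h ∈ H.1, z' * h = h * z') (n : ℕ)
    (e : Matrix (Fin n) (Fin n) (MonoidAlgebra F H.1)) (he : e * e = e) :
    genUnit (⟨H, z * z', comm_mul hz hz', n, e, he⟩ : Gen F G) =
      genUnit ⟨H, z, hz, n, e, he⟩ * genUnit ⟨H, z', hz', n, e, he⟩ := by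
  apply Units.ext
  rw [Units.val_mul, genUnit_val, genUnit_val, genUnit_val]
  show 1 + ((gUnit F (z * z') : MonoidAlgebra F G) - 1) • e.map (toG H) =
    (1 + ((gUnit F z : MonoidAlgebra F G) - 1) • e.map (toG H)) *
      (1 + ((gUnit F z' : MonoidAlgebra F G) - 1) • e.map (toG H))
  rw [tw_mul _ _ _ (idem_map _ he) fun i j => comm_toG H hz' (e i j), gUnit_mul, Units.val_mul]

lemma genUnit_equiv (H : FinSub G) (z : G) (hz : ∀ h ∈ H.1, z * h = h * z) (m n : ℕ)
    (a : Matrix (Fin m) (Fin n) (MonoidAlgebra F H.1))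
    (b : Matrix (Fin n) (Fin m) (MonoidAlgebra F H.1))
    (he : a * b * (a * b) = a * b) (hf : b * a * (b * a) = b * a) :
    K1.cls (genUnit (⟨H, z, hz, m, a * b, he⟩ : Gen F G)) =
      K1.cls (genUnit ⟨H, z, hz, n, b * a, hf⟩) := by
  have hK := (specK.{max u v, 0}).oneAdd (MonoidAlgebra F G) (Fin m) (Fin n)
    (((gUnit F z : MonoidAlgebra F G) - 1) • a.map (toG H)) (b.map (toG H))
    (genUnit (⟨H, z, hz, m, a * b, he⟩ : Gen F G)) (genUnit ⟨H, z, hz, n, b * a, hf⟩) ?_ ?_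
  · rwa [(specK.{max u v, 0}).cls, (specK.{max u v, 0}).cls] at hK
  · rw [genUnit_val]
    show 1 + ((gUnit F z : MonoidAlgebra F G) - 1) • (a * b).map (toG H) = _
    rw [Matrix.map_mul, Matrix.smul_mul]
  · rw [genUnit_val]
    show 1 + ((gUnit F z : MonoidAlgebra F G) - 1) • (b * a).map (toG H) = _
    rw [Matrix.map_mul, mul_smul_of_comm]
    intro i j
    have := comm_toG H hz (b i j)
    rw [sub_mul, mul_sub, one_mul, mul_one, Matrix.map_apply, this]

lemma genUnit_block (H : FinSub G) (z : G) (hz : ∀ h ∈ H.1, z * h = h * z) (m n : ℕ)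
    (e : Matrix (Fin m) (Fin m) (MonoidAlgebra F H.1))
    (f : Matrix (Fin n) (Fin n) (MonoidAlgebra F H.1))
    (he : e * e = e) (hf : f * f = f)
    (d : Matrix (Fin (m + n)) (Fin (m + n)) (MonoidAlgebra F H.1)) (hd : d * d = d)
    (h : d = Matrix.reindex finSumFinEquiv finSumFinEquiv (Matrix.fromBlocks e 0 0 f)) :
    K1.cls (genUnit (⟨H, z, hz, m + n, d, hd⟩ : Gen F G)) =
      K1.cls (genUnit ⟨H, z, hz, m, e, he⟩) + K1.cls (genUnit ⟨H, z, hz, n, f, hf⟩) := by
  apply K1.cls_block _ _ _ 0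
  rw [genUnit_val, genUnit_val, genUnit_val]
  show 1 + ((gUnit F z : MonoidAlgebra F G) - 1) • d.map (toG H) =
    Matrix.reindex finSumFinEquiv finSumFinEquiv (Matrix.fromBlocks
      (1 + ((gUnit F z : MonoidAlgebra F G) - 1) • e.map (toG H)) 0 0
      (1 + ((gUnit F z : MonoidAlgebra F G) - 1) • f.map (toG H)))
  subst h
  ext1 i j
  obtain ⟨i, rfl⟩ := finSumFinEquiv.surjective i
  obtain ⟨j, rfl⟩ := finSumFinEquiv.surjective j
  simp only [Matrix.add_apply, Matrix.smul_apply, Matrix.map_apply, Matrix.reindex_apply,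
    Matrix.submatrix_apply, Equiv.symm_apply_apply, Matrix.one_apply, smul_eq_mul,
    EmbeddingLike.apply_eq_iff_eq]
  rcases i with i | i <;> rcases j with j | j <;>
    simp [Matrix.fromBlocks, Matrix.one_apply]

lemma genUnit_conj (H K : FinSub G) (g : G) (h : ∀ x ∈ H.1, g * x * g⁻¹ ∈ K.1) (z : G)
    (hz : ∀ x ∈ K.1, z * x = x * z) (n : ℕ)
    (e : Matrix (Fin n) (Fin n) (MonoidAlgebra F H.1)) (he : e * e = e) :
    K1.cls (genUnit (⟨K, z, hz, n,
          e.map (MonoidAlgebra.mapDomainRingHom F (conjHom g H.1 K.1 h)), idem_map _ he⟩ :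
        Gen F G)) =
      K1.cls (genUnit ⟨H, g⁻¹ * z * g, comm_conj h hz, n, e, he⟩) := by
  rw [← K1.cls_conj (genUnit ⟨H, g⁻¹ * z * g, comm_conj h hz, n, e, he⟩)
    (Units.map (Matrix.scalar (Fin n)).toMonoidHom (gUnit F g))]
  congr 1
  have key : ∀ y : MonoidAlgebra F H.1,
      toG K (MonoidAlgebra.mapDomainRingHom F (conjHom g H.1 K.1 h) y) =
      (gUnit F g : MonoidAlgebra F G) * toG H y * ((gUnit F g)⁻¹ : (MonoidAlgebra F G)ˣ) := by
    intro y
    have e1 : (gUnit F g : MonoidAlgebra F G) = MonoidAlgebra.single g 1 := rfl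
    have e2 : ((gUnit F g)⁻¹ : (MonoidAlgebra F G)ˣ) = MonoidAlgebra.single g⁻¹ (1 : F) := rfl
    induction y using MonoidAlgebra.induction_linear with
    | zero => simp
    | add x y hx hy => simp only [map_add, mul_add, add_mul, hx, hy]
    | single x r =>
      rw [e1, e2]
      simp [toG, conjHom, MonoidAlgebra.mapDomain_single, MonoidAlgebra.single_mul_single]
  have e3 : ((Units.map (Matrix.scalar (Fin n)).toMonoidHom (gUnit F g))⁻¹ :
      (Matrix (Fin n) (Fin n) (MonoidAlgebra F G))ˣ) =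
      Units.map (Matrix.scalar (Fin n)).toMonoidHom (gUnit F g)⁻¹ := by
    rw [map_inv]
  apply Units.ext
  rw [e3]
  simp only [Units.val_mul, Units.coe_map]
  rw [genUnit_val, genUnit_val]
  show 1 + ((gUnit F z : MonoidAlgebra F G) - 1) •
      (e.map (MonoidAlgebra.mapDomainRingHom F (conjHom g H.1 K.1 h))).map (toG K) =
    Matrix.scalar (Fin n) (gUnit F g : MonoidAlgebra F G) *
      (1 + ((gUnit F (g⁻¹ * z * g) : MonoidAlgebra F G) - 1) • e.map (toG H)) *
    Matrix.scalar (Fin n) (((gUnit F g)⁻¹ : (MonoidAlgebra F G)ˣ) : MonoidAlgebra F G)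
  ext1 i j
  rw [Matrix.scalar_apply, Matrix.scalar_apply, Matrix.mul_diagonal, Matrix.diagonal_mul]
  simp only [Matrix.add_apply, Matrix.smul_apply, Matrix.map_apply, smul_eq_mul, key]
  rw [gUnit_mul, gUnit_mul, mul_add, add_mul]
  congr 1
  · by_cases hij : i = j
    · subst hij
      simp
    · simp [Matrix.one_apply_ne hij]
  · have e4 : gUnit F g⁻¹ = (gUnit F g)⁻¹ := by simp [gUnit, map_inv]
    rw [e4, Units.val_mul, Units.val_mul]
    have h1 : (gUnit F g : MonoidAlgebra F G) *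
        ((((gUnit F g)⁻¹ : (MonoidAlgebra F G)ˣ) : MonoidAlgebra F G) *
          (gUnit F z : MonoidAlgebra F G) * (gUnit F g : MonoidAlgebra F G) - 1) =
        ((gUnit F z : MonoidAlgebra F G) - 1) * (gUnit F g : MonoidAlgebra F G) := by
      rw [mul_sub, sub_mul, ← mul_assoc, ← mul_assoc, Units.mul_inv, one_mul, mul_one, one_mul]
    rw [← mul_assoc (gUnit F g : MonoidAlgebra F G), h1]
    simp only [mul_assoc]

/-- The map `(H, z, e) ↦ [1 - e + z e]` to `K_1(F[G])`. -/
def asm2 (F : Type u) [CommRing F] (G : Type v) [Group G] : S2 F G →+ K1 (MonoidAlgebra F G) :=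
  S2.lift (fun x => K1.cls (genUnit x)) (by
    rintro x (⟨H, z, z', hz, hz', n, e, he⟩ | ⟨H, z, hz, m, n, a, b, he, hf⟩ |
      ⟨H, z, hz, m, n, e, f, he, hf, d, hd, h⟩ | ⟨H, K, g, h, z, hz, n, e, he⟩)
    · simp only [map_sub, FreeAbelianGroup.lift_apply_of]
      rw [genUnit_mul H z z' hz hz', K1.cls_mul]
      abel
    · simp only [map_sub, FreeAbelianGroup.lift_apply_of]
      rw [genUnit_equiv H z hz m n a b he hf, sub_self]
    · simp only [map_sub, FreeAbelianGroup.lift_apply_of]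
      rw [genUnit_block H z hz m n e f he hf d hd h]
      abel
    · simp only [map_sub, FreeAbelianGroup.lift_apply_of]
      rw [genUnit_conj H K g h z hz n e he, sub_self])

@[simp] lemma asm2_cls (x : Gen F G) : asm2 F G (S2.cls x) = K1.cls (genUnit x) :=
  S2.lift_cls _ _ x

end Pool.Agent.Lib.MPb6f35e.W2
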