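import Pool.Agent.Lib.MP_b6f35e_al.W2.Pair

/-!
# Invariants of idempotent matrices over `F[H]` are given by class functions
-/

set_option autoImplicit false

noncomputable section

namespace Pool.Agent.Lib.MPb6f35e.W2

universe u v w

section

variable {F : Type u} [Field F] [CharZero F] {H : Type v} [Group H] [Fintype H]

lemma ssr (F : Type u) [Field F] [CharZero F] (H : Type v) [Group H] [Fintype H] :
    IsSemisimpleRing (MonoidAlgebra F H) := by
  have : NeZero (Nat.card H : F) := ⟨Nat.cast_ne_zero.2 Nat.card_pos.ne'⟩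
  infer_instance

lemma finA (F : Type u) [Field F] (H : Type v) [Group H] [Fintype H] :
    Module.Finite F (MonoidAlgebra F H) :=
  Module.Finite.of_basis (MonoidAlgebra.basis H F)

lemma finM (F : Type u) [Field F] (H : Type v) [Group H] [Fintype H] (n m : ℕ) :
    Module.Finite F (Matrix (Fin n) (Fin m) (MonoidAlgebra F H)) :=
  Module.Finite.of_basis ((MonoidAlgebra.basis H F).matrix (Fin n) (Fin m))

lemma LM_idem {n m : ℕ} {e : Matrix (Fin n) (Fin n) (MonoidAlgebra F H)}
    {f : Matrix (Fin m) (Fin m) (MonoidAlgebra F H)} (he : e * e = e) (hf : f * f = f) :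
    IsIdempotentElem (LM e f) := by
  apply LinearMap.ext
  intro y
  show e * (e * y * f) * f = e * y * f
  calc e * (e * y * f) * f = (e * e) * y * (f * f) := by simp only [Matrix.mul_assoc]
    _ = _ := by rw [he, hf]

lemma pr_chi_zero {n m : ℕ} {e : Matrix (Fin n) (Fin n) (MonoidAlgebra F H)}
    {f : Matrix (Fin m) (Fin m) (MonoidAlgebra F H)}
    (h : ∀ y : Matrix (Fin n) (Fin m) (MonoidAlgebra F H), e * y * f = 0) :
    pr (chi f) e = 0 := by
  rw [← LM_trace]
  have : LM e f = 0 := LinearMap.ext h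
  rw [this, map_zero]

lemma eq_zero_of_pr {n m : ℕ} {e : Matrix (Fin n) (Fin n) (MonoidAlgebra F H)}
    {f : Matrix (Fin m) (Fin m) (MonoidAlgebra F H)} (he : e * e = e) (hf : f * f = f)
    (h : pr (chi f) e = 0) (y : Matrix (Fin n) (Fin m) (MonoidAlgebra F H)) :
    e * y * f = 0 := by
  rw [← LM_trace] at h
  have := finM F H n m
  have h2 := (LinearMap.IsIdempotentElem.trace_eq_zero_iff (LM_idem he hf)).1 h
  exact LinearMap.congr_fun h2 y

lemma pr_chi_self {n : ℕ} {e : Matrix (Fin n) (Fin n) (MonoidAlgebra F H)}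
    (he : e * e = e) (h0 : e ≠ 0) : pr (chi e) e ≠ 0 := by
  intro h
  apply h0
  have := eq_zero_of_pr he he h 1
  rwa [mul_one, he] at this

/-- the size of an idempotent -/
def siz {n : ℕ} (e : Matrix (Fin n) (Fin n) (MonoidAlgebra F H)) : ℕ :=
  Module.finrank F (LinearMap.range (LM e (1 : Matrix (Fin 1) (Fin 1) (MonoidAlgebra F H))))

lemma siz_cast {n : ℕ} {e : Matrix (Fin n) (Fin n) (MonoidAlgebra F H)} (he : e * e = e) :
    (siz e : F) = pr (chi (1 : Matrix (Fin 1) (Fin 1) (MonoidAlgebra F H))) e := by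
  have := finM F H n 1
  rw [← LM_trace]
  have hid : IsIdempotentElem (LM e (1 : Matrix (Fin 1) (Fin 1) (MonoidAlgebra F H))) :=
    LM_idem he (mul_one _)
  exact (LinearMap.IsProj.trace (LinearMap.IsIdempotentElem.isProj_range _ hid)).symm

lemma siz_zero {n : ℕ} {e : Matrix (Fin n) (Fin n) (MonoidAlgebra F H)} (he : e * e = e)
    (h : siz e = 0) : e = 0 := by
  have h1 := siz_cast he
  rw [h, Nat.cast_zero] at h1
  have h2 := eq_zero_of_pr he (mul_one _) h1.symm
  ext1 i j
  have h3 := h2 (Matrix.of fun k _ => if k = j then 1 else 0)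
  have h4 := congrFun (congrFun h3 i) 0
  rw [Matrix.mul_one, Matrix.mul_apply] at h4
  simpa using h4

lemma siz_add {n : ℕ} {e g : Matrix (Fin n) (Fin n) (MonoidAlgebra F H)} (he : e * e = e)
    (hg : g * g = g) (heg : e * g = 0) (hge : g * e = 0) : siz (e + g) = siz e + siz g := by
  have h : (e + g) * (e + g) = e + g := by
    rw [add_mul, mul_add, mul_add, he, hg, heg, hge, add_zero, zero_add]
  have : ((siz (e + g) : ℕ) : F) = ((siz e + siz g : ℕ) : F) := by
    rw [Nat.cast_add, siz_cast h, siz_cast he, siz_cast hg, pr_add]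
  exact Nat.cast_injective this

/-- Invariants which agree on primitive idempotents are equal. -/
lemma KF_eq {V : Type w} [AddCommGroup V] (l l' : KF (MonoidAlgebra F H) V)
    (h : ∀ (n : ℕ) (e : Matrix (Fin n) (Fin n) (MonoidAlgebra F H)), Prim e →
      l.val n e = l'.val n e) (n : ℕ) (e : Matrix (Fin n) (Fin n) (MonoidAlgebra F H))
    (he : e * e = e) : l.val n e = l'.val n e :=
  prim_induction (fun e => l.val n e = l'.val n e) siz (fun _ he h => siz_zero he h)
    (fun _ _ he hg heg hge => siz_add he hg heg hge) (by rw [l.zero, l'.zero])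
    (fun e he => h n e he)
    (fun e g he hg heg hge h1 h2 => by rw [l.add he hg heg hge, l'.add he hg heg hge, h1, h2])
    e he

/-- Characters of primitive idempotents. -/
def PS (F : Type u) [Field F] (H : Type v) [Group H] [Fintype H] : Set (H → F) :=
  {χ | ∃ (n : ℕ) (e : Matrix (Fin n) (Fin n) (MonoidAlgebra F H)), Prim e ∧ chi e = χ}

/-- The span of the characters of idempotent matrices. -/
def XX (F : Type u) [Field F] (H : Type v) [Group H] [Fintype H] : Submodule F (H → F) :=
  Submodule.span F {χ | ∃ (n : ℕ) (e : Matrix (Fin n) (Fin n) (MonoidAlgebra F H)),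
    e * e = e ∧ chi e = χ}

lemma XX_eq : XX F H = Submodule.span F (PS F H) := by
  apply le_antisymm
  · unfold XX
    rw [Submodule.span_le]
    rintro χ ⟨n, e, he, rfl⟩
    show chi e ∈ Submodule.span F (PS F H)
    refine prim_induction (fun e => chi e ∈ Submodule.span F (PS F H)) siz
      (fun _ he h => siz_zero he h) (fun _ _ he hg heg hge => siz_add he hg heg hge) ?_ ?_ ?_ e he
    · have : chi (0 : Matrix (Fin n) (Fin n) (MonoidAlgebra F H)) = 0 := by
        funext h
        simp [chi, pr]
      rw [this]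
      exact Submodule.zero_mem _
    · intro e he
      exact Submodule.subset_span ⟨n, e, he, rfl⟩
    · intro e g _ _ _ _ h1 h2
      rw [chi_add]
      exact Submodule.add_mem _ h1 h2
  · apply Submodule.span_mono
    rintro χ ⟨n, e, he, h⟩
    exact ⟨n, e, he.2.1, h⟩

lemma chi_eqv {n m : ℕ} {e : Matrix (Fin n) (Fin n) (MonoidAlgebra F H)}
    {f : Matrix (Fin m) (Fin m) (MonoidAlgebra F H)} (h : Eqv e f) :
    chi e = chi f := by
  obtain ⟨a, b, rfl, rfl⟩ := h
  funext h
  exact pr_comm (nu_cls h) a b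

lemma pr_chi_prim {n m : ℕ} {e : Matrix (Fin n) (Fin n) (MonoidAlgebra F H)}
    {f : Matrix (Fin m) (Fin m) (MonoidAlgebra F H)} (he : Prim e) (hf : Prim f)
    (h : chi e ≠ chi f) : pr (chi f) e = 0 := by
  apply pr_chi_zero
  intro y
  by_contra hy
  have := ssr F H
  exact h (chi_eqv (schur he hf y hy))

lemma eqv_of_chi {n m : ℕ} {e : Matrix (Fin n) (Fin n) (MonoidAlgebra F H)}
    {f : Matrix (Fin m) (Fin m) (MonoidAlgebra F H)} (he : Prim e) (hf : Prim f)
    (h : chi e = chi f) : Eqv e f := by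
  have h1 := pr_chi_self he.2.1 he.1
  rw [h] at h1
  by_contra h2
  apply h1
  apply pr_chi_zero
  intro y
  by_contra hy
  have := ssr F H
  exact h2 (schur he hf y hy)

/-- `μ ↦ pr μ e` is linear. -/
def prL {n : ℕ} (e : Matrix (Fin n) (Fin n) (MonoidAlgebra F H)) : (H → F) →ₗ[F] F where
  toFun μ := pr μ e
  map_add' μ ν := by
    unfold pr
    rw [← Finset.sum_add_distrib]
    refine Finset.sum_congr rfl fun i _ => ?_
    rw [ext1_eq, ext1_eq, ext1_eq, ← Finset.sum_add_distrib]
    refine Finset.sum_congr rfl fun k _ => ?_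
    rw [Pi.add_apply, mul_add]
  map_smul' c μ := by
    unfold pr
    rw [RingHom.id_apply, smul_eq_mul, Finset.mul_sum]
    refine Finset.sum_congr rfl fun i _ => ?_
    rw [ext1_eq, ext1_eq, Finset.mul_sum]
    refine Finset.sum_congr rfl fun k _ => ?_
    rw [Pi.smul_apply, smul_eq_mul]
    ring

/-- The size of the representing idempotent of a primitive character. -/
def repN (χ : PS F H) : ℕ := χ.2.choose

/-- The representing idempotent of a primitive character. -/
def repE (χ : PS F H) : Matrix (Fin (repN χ)) (Fin (repN χ)) (MonoidAlgebra F H) :=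
  χ.2.choose_spec.choose

lemma repE_prim (χ : PS F H) : Prim (repE χ) := χ.2.choose_spec.choose_spec.1

lemma repE_chi (χ : PS F H) : chi (repE χ) = χ := χ.2.choose_spec.choose_spec.2

lemma prL_rep (χ χ' : PS F H) (h : χ ≠ χ') : prL (repE χ) (χ' : H → F) = 0 := by
  show pr (χ' : H → F) (repE χ) = 0
  rw [← repE_chi χ']
  apply pr_chi_prim (repE_prim χ) (repE_prim χ')
  rw [repE_chi, repE_chi]
  exact fun h1 => h (Subtype.ext h1)

lemma prL_rep_self (χ : PS F H) : prL (repE χ) (χ : H → F) ≠ 0 := by
  show pr (χ : H → F) (repE χ) ≠ 0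
  have h := pr_chi_self (repE_prim χ).2.1 (repE_prim χ).1
  rwa [repE_chi] at h

lemma PS_indep : LinearIndependent F (fun χ : PS F H => (χ : H → F)) := by
  rw [linearIndependent_iff']
  intro s g hg χ hχ
  have h1 := congrArg (prL (repE χ)) hg
  rw [map_sum, map_zero, Finset.sum_eq_single χ] at h1
  · rw [map_smul, smul_eq_mul] at h1
    exact (mul_eq_zero.1 h1).resolve_right (prL_rep_self χ)
  · intro χ' _ h
    rw [map_smul, prL_rep χ χ' (Ne.symm h), smul_zero]
  · intro h; exact absurd hχ h

instance PS_finite : Finite (PS F H) :=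
  (PS_indep (F := F) (H := H)).finite

instance PS_fintype : Fintype (PS F H) := Fintype.ofFinite (PS F H)

/-- The class function of an invariant. -/
def muOf (l : KF (MonoidAlgebra F H) F) : H → F :=
  ∑ χ : PS F H, (l.val _ (repE χ) / prL (repE χ) (χ : H → F)) • (χ : H → F)

lemma muOf_mem (l : KF (MonoidAlgebra F H) F) : muOf l ∈ XX F H := by
  rw [XX_eq]
  unfold muOf
  refine Submodule.sum_mem _ fun χ _ => Submodule.smul_mem _ _ (Submodule.subset_span χ.2)

lemma XX_cls {μ : H → F} (h : μ ∈ XX F H) : IsCls μ := by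
  unfold XX at h
  induction h using Submodule.span_induction with
  | mem x hx =>
    obtain ⟨n, e, _, rfl⟩ := hx
    exact chi_cls e
  | zero => intro x y; rfl
  | add μ ν _ _ h1 h2 => intro x y; rw [Pi.add_apply, Pi.add_apply, h1, h2]
  | smul c μ _ h1 => intro x y; rw [Pi.smul_apply, Pi.smul_apply, h1]

lemma muOf_spec (l : KF (MonoidAlgebra F H) F) (n : ℕ)
    (e : Matrix (Fin n) (Fin n) (MonoidAlgebra F H)) (he : e * e = e) :
    l.val n e = pr (muOf l) e := by
  classical
  have hc : IsCls (muOf l) := XX_cls (muOf_mem l)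
  refine KF_eq l (prKF (muOf l) hc) ?_ n e he
  intro n e he
  show l.val n e = prL e (muOf l)
  unfold muOf
  set χ : PS F H := ⟨chi e, n, e, he, rfl⟩ with hχ
  rw [map_sum, Finset.sum_eq_single χ]
  · rw [map_smul, smul_eq_mul]
    have h1 : Eqv e (repE χ) := eqv_of_chi he (repE_prim χ) (by rw [repE_chi])
    have h2 : l.val n e = l.val _ (repE χ) := l.eqv he.2.1 (repE_prim χ).2.1 h1
    have h3 : prL e (χ : H → F) = prL (repE χ) (χ : H → F) := by
      show pr (χ : H → F) e = pr (χ : H → F) (repE χ)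
      obtain ⟨a, b, hab, hba⟩ := h1
      rw [← hba]
      conv_lhs => rw [← hab]
      exact pr_comm (chi_cls e) a b
    rw [h2, h3, div_mul_cancel₀ _ (prL_rep_self χ)]
  · intro χ' _ h
    rw [map_smul, smul_eq_mul]
    have : prL e (χ' : H → F) = 0 := by
      show pr (χ' : H → F) e = 0
      rw [← repE_chi χ']
      apply pr_chi_prim he (repE_prim χ')
      rw [repE_chi]
      exact fun h1 => h (Subtype.ext h1.symm)
    rw [this, mul_zero]
  · intro h; exact absurd (Finset.mem_univ χ) h

/-- Uniqueness. -/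
lemma XX_unique {μ : H → F} (h : μ ∈ XX F H)
    (h0 : ∀ (n : ℕ) (e : Matrix (Fin n) (Fin n) (MonoidAlgebra F H)), e * e = e → pr μ e = 0) :
    μ = 0 := by
  classical
  have key : μ = ∑ χ : PS F H, (prL (repE χ) μ / prL (repE χ) (χ : H → F)) • (χ : H → F) := by
    rw [XX_eq] at h
    clear h0
    induction h using Submodule.span_induction with
    | mem x hx =>
      rw [Finset.sum_eq_single (⟨x, hx⟩ : PS F H)]
      · have := prL_rep_self (⟨x, hx⟩ : PS F H)
        rw [div_self this, one_smul]
      · intro χ' _ h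
        have : prL (repE χ') x = 0 := prL_rep χ' ⟨x, hx⟩ h
        rw [this, zero_div, zero_smul]
      · intro h; exact absurd (Finset.mem_univ _) h
    | zero => simp
    | add μ ν _ _ h1 h2 =>
      conv_lhs => rw [h1, h2]
      rw [← Finset.sum_add_distrib]
      refine Finset.sum_congr rfl fun χ _ => ?_
      rw [map_add, add_div, add_smul]
    | smul c μ _ h1 =>
      conv_lhs => rw [h1]
      rw [Finset.smul_sum]
      refine Finset.sum_congr rfl fun χ _ => ?_
      rw [map_smul, smul_smul, smul_eq_mul, mul_div_assoc]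
  rw [key]
  apply Finset.sum_eq_zero
  intro χ _
  have : prL (repE χ) μ = 0 := h0 _ (repE χ) (repE_prim χ).2.1
  rw [this, zero_div, zero_smul]

end

end Pool.Agent.Lib.MPb6f35e.W2
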