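import Pool.Agent.Lib.MP_b6f35e_al.W2.PullB

/-!
# Every homomorphism from the second summand to `F` is a Dennis trace
-/

set_option autoImplicit false

noncomputable section

namespace Pool.Agent.Lib.MPb6f35e.W2

open Pool.Agent.Lib.MPb6f35e.WH

universe u v w

section

variable {F : Type u} [Field F] [CharZero F] {G : Type v} [Group G]

instance finSubFintype (H : FinSub G) : Fintype H.1 :=
  haveI := H.2
  Fintype.ofFinite _

/-- A finite cyclic subgroup. -/
def zp (c : G) (hc : IsOfFinOrder c) : FinSub G :=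
  ⟨Subgroup.zpowers c, finite_zpowers.2 hc⟩

open Classical in
/-- The invariant of idempotent matrices over `F[H]` defined by `l` and `z`. -/
def kfOf (l : S2 F G →+ F) (H : FinSub G) (z : G) (hz : ∀ h ∈ H.1, z * h = h * z) :
    KF (MonoidAlgebra F H.1) F where
  val n e := if he : e * e = e then l (S2.cls ⟨H, z, hz, n, e, he⟩) else 0
  equiv m n a b he hf := by
    rw [dif_pos he, dif_pos hf, ← sub_eq_zero, ← map_sub]
    have h := S2.rel (Rel.equiv H z hz m n a b he hf)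
    have h2 : S2.cls ⟨H, z, hz, m, a * b, he⟩ - S2.cls ⟨H, z, hz, n, b * a, hf⟩ = 0 := h
    rw [h2, map_zero]
  block m n e f he hf := by
    have hd : Matrix.reindex finSumFinEquiv finSumFinEquiv (Matrix.fromBlocks e 0 0 f) *
        Matrix.reindex finSumFinEquiv finSumFinEquiv (Matrix.fromBlocks e 0 0 f) =
        Matrix.reindex finSumFinEquiv finSumFinEquiv (Matrix.fromBlocks e 0 0 f) := by
      rw [Matrix.reindex_apply, Matrix.submatrix_mul_equiv, Matrix.fromBlocks_multiply]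
      simp [he, hf]
    rw [dif_pos he, dif_pos hf, dif_pos hd]
    have h := S2.rel (Rel.block H z hz m n e f he hf _ hd rfl)
    have h2 : S2.cls ⟨H, z, hz, m + n, _, hd⟩ - S2.cls ⟨H, z, hz, m, e, he⟩ -
      S2.cls ⟨H, z, hz, n, f, hf⟩ = 0 := h
    rw [sub_sub, sub_eq_zero] at h2
    rw [h2, map_add]

lemma kfOf_val (l : S2 F G →+ F) (H : FinSub G) (z : G) (hz : ∀ h ∈ H.1, z * h = h * z) (n : ℕ)
    (e : Matrix (Fin n) (Fin n) (MonoidAlgebra F H.1)) (he : e * e = e) :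
    (kfOf l H z hz).val n e = l (S2.cls ⟨H, z, hz, n, e, he⟩) := dif_pos he

/-- The class function of `l` and `z` on `H`. -/
def mu (l : S2 F G →+ F) (H : FinSub G) (z : G) (hz : ∀ h ∈ H.1, z * h = h * z) : H.1 → F :=
  muOf (kfOf l H z hz)

lemma mu_mem (l : S2 F G →+ F) (H : FinSub G) (z : G) (hz : ∀ h ∈ H.1, z * h = h * z) :
    mu l H z hz ∈ XX F H.1 := muOf_mem _

lemma mu_spec (l : S2 F G →+ F) (H : FinSub G) (z : G) (hz : ∀ h ∈ H.1, z * h = h * z) (n : ℕ)
    (e : Matrix (Fin n) (Fin n) (MonoidAlgebra F H.1)) (he : e * e = e) :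
    pr (mu l H z hz) e = l (S2.cls ⟨H, z, hz, n, e, he⟩) := by
  rw [← kfOf_val, muOf_spec _ n e he]
  rfl

lemma mu_congr (l : S2 F G →+ F) (H : FinSub G) {z z' : G} (hz : ∀ h ∈ H.1, z * h = h * z)
    (h : z = z') : mu l H z hz = mu l H z' (h ▸ hz) := by
  subst h
  rfl

/-- two members of `XX` with equal pairings are equal -/
lemma XX_ext {H : Type v} [Group H] [Fintype H] {μ ν : H → F} (hμ : μ ∈ XX F H)
    (hν : ν ∈ XX F H)
    (h : ∀ (n : ℕ) (e : Matrix (Fin n) (Fin n) (MonoidAlgebra F H)), e * e = e →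
      pr μ e = pr ν e) : μ = ν := by
  rw [← sub_eq_zero]
  apply XX_unique (Submodule.sub_mem _ hμ hν)
  intro n e he
  show prL e (μ - ν) = 0
  rw [map_sub, sub_eq_zero]
  exact h n e he

lemma mu_mul (l : S2 F G →+ F) (H : FinSub G) (z z' : G) (hz : ∀ h ∈ H.1, z * h = h * z)
    (hz' : ∀ h ∈ H.1, z' * h = h * z') :
    mu l H (z * z') (comm_mul hz hz') = mu l H z hz + mu l H z' hz' := by
  apply XX_ext (mu_mem _ _ _ _) (Submodule.add_mem _ (mu_mem _ _ _ _) (mu_mem _ _ _ _))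
  intro n e he
  rw [mu_spec l H _ _ n e he]
  show _ = prL e (mu l H z hz + mu l H z' hz')
  rw [map_add]
  show _ = pr (mu l H z hz) e + pr (mu l H z' hz') e
  rw [mu_spec l H _ _ n e he, mu_spec l H _ _ n e he, ← map_add]
  have h := S2.rel (Rel.mul H z z' hz hz' n e he)
  have h2 : S2.cls ⟨H, z * z', comm_mul hz hz', n, e, he⟩ - S2.cls ⟨H, z, hz, n, e, he⟩ -
      S2.cls ⟨H, z', hz', n, e, he⟩ = 0 := h
  rw [sub_sub, sub_eq_zero] at h2
  rw [h2]

lemma ext1_map {H K : Type v} [Group H] [Group K] (φ : H →* K) (μ : K → F)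
    (a : MonoidAlgebra F H) :
    ext1 μ (MonoidAlgebra.mapDomainRingHom F φ a) = ext1 (fun x => μ (φ x)) a := by
  induction a using MonoidAlgebra.induction_linear with
  | zero => simp
  | add x y hx hy => simp only [map_add, hx, hy]
  | single x r =>
    rw [MonoidAlgebra.mapDomainRingHom_apply, MonoidAlgebra.mapDomain_single, ext1_single,
      ext1_single]

lemma mu_conj (l : S2 F G →+ F) (H K : FinSub G) (g : G) (h : ∀ x ∈ H.1, g * x * g⁻¹ ∈ K.1)
    (z : G) (hz : ∀ x ∈ K.1, z * x = x * z) :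
    (fun x : H.1 => mu l K z hz (conjHom g H.1 K.1 h x)) =
      mu l H (g⁻¹ * z * g) (comm_conj h hz) := by
  apply XX_ext (XX_pull (conjHom g H.1 K.1 h) (mu_mem _ _ _ _)) (mu_mem _ _ _ _)
  intro n e he
  rw [mu_spec l H _ _ n e he]
  have h1 : pr (fun x : H.1 => mu l K z hz (conjHom g H.1 K.1 h x)) e =
      pr (mu l K z hz) (e.map (MonoidAlgebra.mapDomainRingHom F (conjHom g H.1 K.1 h))) := by
    unfold pr
    refine Finset.sum_congr rfl fun i _ => ?_
    rw [Matrix.map_apply, ext1_map]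
  rw [h1, mu_spec l K z hz n _ (idem_map _ he), ← sub_eq_zero, ← map_sub]
  have h2 := S2.rel (Rel.conj H K g h z hz n e he)
  have h3 : S2.cls ⟨K, z, hz, n,
          e.map (MonoidAlgebra.mapDomainRingHom F (conjHom g H.1 K.1 h)), idem_map _ he⟩ -
      S2.cls ⟨H, g⁻¹ * z * g, comm_conj h hz, n, e, he⟩ = 0 := h2
  rw [h3, map_zero]

/-! ### the class function of the pair `(c, z)` -/

lemma comm_zp {c z : G} (hc : IsOfFinOrder c) (h : z * c = c * z) :
    ∀ x ∈ (zp c hc).1, z * x = x * z := by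
  intro x hx
  obtain ⟨k, rfl⟩ := Subgroup.mem_zpowers_iff.1 hx
  exact ((show Commute z c from h).zpow_right k).eq

lemma mem_zp (c : G) (hc : IsOfFinOrder c) : c ∈ (zp c hc).1 := Subgroup.mem_zpowers c

open Classical in
/-- `φ(c, z)` -/
def phi (l : S2 F G →+ F) (c z : G) : F :=
  if h : IsOfFinOrder c ∧ z * c = c * z then
    mu l (zp c h.1) z (comm_zp h.1 h.2) ⟨c, mem_zp c h.1⟩ else 0

lemma phi_eq (l : S2 F G →+ F) {c z : G} (hc : IsOfFinOrder c) (h : z * c = c * z) :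
    phi l c z = mu l (zp c hc) z (comm_zp hc h) ⟨c, mem_zp c hc⟩ :=
  dif_pos (⟨hc, h⟩ : IsOfFinOrder c ∧ z * c = c * z)

lemma phi_mu (l : S2 F G →+ F) (H : FinSub G) (z : G) (hz : ∀ h ∈ H.1, z * h = h * z)
    (h : H.1) : mu l H z hz h = phi l h z := by
  have := H.2
  have hfin : IsOfFinOrder (h : G) := H.1.subtype.isOfFinOrder (isOfFinOrder_of_finite h)
  rw [phi_eq l hfin (hz h h.2)]
  have hsub : ∀ x ∈ (zp (h : G) hfin).1, (1 : G) * x * (1 : G)⁻¹ ∈ H.1 := by
    intro x hx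
    rw [one_mul, inv_one, mul_one]
    exact (Subgroup.zpowers_le.2 h.2) hx
  have h1 := congrFun (mu_conj l (zp (h : G) hfin) H 1 hsub z hz) ⟨h, mem_zp _ hfin⟩
  have h2 : conjHom 1 (zp (h : G) hfin).1 H.1 hsub ⟨h, mem_zp _ hfin⟩ = h := by
    apply Subtype.ext
    show (1 : G) * h * (1 : G)⁻¹ = h
    simp
  rw [h2] at h1
  rw [h1]
  have h3 : (1 : G)⁻¹ * z * 1 = z := by simp
  rw [mu_congr l _ _ h3]

lemma phi_conj (l : S2 F G →+ F) {c z : G} (g : G) (hc : IsOfFinOrder c) (h : z * c = c * z) :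
    phi l (g * c * g⁻¹) (g * z * g⁻¹) = phi l c z := by
  have hc' : IsOfFinOrder (g * c * g⁻¹) := by
    have := (MulAut.conj g).toMonoidHom.isOfFinOrder hc
    exact this
  have h' : g * z * g⁻¹ * (g * c * g⁻¹) = g * c * g⁻¹ * (g * z * g⁻¹) := by
    have : g * (z * c) * g⁻¹ = g * (c * z) * g⁻¹ := by rw [h]
    simpa [mul_assoc] using this
  rw [phi_eq l hc h, phi_eq l hc' h']
  have hsub : ∀ x ∈ (zp c hc).1, g * x * g⁻¹ ∈ (zp (g * c * g⁻¹) hc').1 := by
    intro x hx
    obtain ⟨k, rfl⟩ := Subgroup.mem_zpowers_iff.1 hx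
    show g * c ^ k * g⁻¹ ∈ Subgroup.zpowers (g * c * g⁻¹)
    rw [← conj_zpow]
    exact Subgroup.zpow_mem _ (Subgroup.mem_zpowers _) k
  have h1 := congrFun (mu_conj l (zp c hc) (zp (g * c * g⁻¹) hc') g hsub (g * z * g⁻¹)
    (comm_zp hc' h')) ⟨c, mem_zp c hc⟩
  have h2 : conjHom g (zp c hc).1 (zp (g * c * g⁻¹) hc').1 hsub ⟨c, mem_zp c hc⟩ =
      ⟨g * c * g⁻¹, mem_zp _ hc'⟩ := rfl
  rw [h2] at h1
  rw [h1]
  have h3 : g⁻¹ * (g * z * g⁻¹) * g = z := by group
  rw [mu_congr l _ _ h3]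

lemma phi_mul (l : S2 F G →+ F) {c z z' : G} (hc : IsOfFinOrder c) (h : z * c = c * z)
    (h' : z' * c = c * z') : phi l c (z * z') = phi l c z + phi l c z' := by
  have h'' : z * z' * c = c * (z * z') := by rw [mul_assoc, h', ← mul_assoc, h, mul_assoc]
  rw [phi_eq l hc h, phi_eq l hc h', phi_eq l hc h'', mu_mul l (zp c hc) z z' (comm_zp hc h)
    (comm_zp hc h')]
  rfl

/-! ### the cocycle -/

/-- base point of the conjugacy class -/
def rp (h : G) : G := (ConjClasses.mk h).exists_rep.choose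

lemma rp_spec (h : G) : ConjClasses.mk (rp h) = ConjClasses.mk h :=
  (ConjClasses.mk h).exists_rep.choose_spec

lemma rp_conj (y h : G) : rp (y * h * y⁻¹) = rp h := by
  have : ConjClasses.mk (y * h * y⁻¹) = ConjClasses.mk h :=
    ConjClasses.mk_eq_mk_iff_isConj.2 (isConj_iff.2 ⟨y⁻¹, by group⟩)
  unfold rp
  simp only [this]

lemma tr_exists (h : G) : ∃ t : G, t * rp h * t⁻¹ = h := by
  have := ConjClasses.mk_eq_mk_iff_isConj.1 (rp_spec h)
  exact isConj_iff.1 this

/-- transporter -/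
def tp (h : G) : G := (tr_exists h).choose

lemma tp_spec (h : G) : tp h * rp h * (tp h)⁻¹ = h := (tr_exists h).choose_spec

open Classical in
/-- The cocycle defined by `l`. -/
def th (l : S2 F G →+ F) (y h : G) : F :=
  if IsOfFinOrder h then phi l (rp h) ((tp (y * h * y⁻¹))⁻¹ * y * tp h) else 0

lemma fin_conj {y h : G} : IsOfFinOrder (y * h * y⁻¹) ↔ IsOfFinOrder h := by
  constructor
  · intro h1
    have := (MulAut.conj y⁻¹).toMonoidHom.isOfFinOrder h1
    have e : (MulAut.conj y⁻¹).toMonoidHom (y * h * y⁻¹) = h := by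
      show y⁻¹ * (y * h * y⁻¹) * (y⁻¹)⁻¹ = h
      group
    rwa [e] at this
  · intro h1
    exact (MulAut.conj y).toMonoidHom.isOfFinOrder h1

lemma fin_rp {h : G} : IsOfFinOrder (rp h) ↔ IsOfFinOrder h := by
  conv_rhs => rw [← tp_spec h]
  exact fin_conj.symm

lemma tp_comm (y h : G) :
    (tp (y * h * y⁻¹))⁻¹ * y * tp h * rp h = rp h * ((tp (y * h * y⁻¹))⁻¹ * y * tp h) := by
  have h1 := tp_spec h
  have h2 := tp_spec (y * h * y⁻¹)
  rw [rp_conj] at h2
  have h3 : tp h * rp h = h * tp h := by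
    rw [← mul_inv_eq_iff_eq_mul]; exact h1
  have h4 : tp (y * h * y⁻¹) * rp h = y * h * y⁻¹ * tp (y * h * y⁻¹) := by
    rw [← mul_inv_eq_iff_eq_mul]; exact h2
  have h5 : rp h * (tp (y * h * y⁻¹))⁻¹ = (tp (y * h * y⁻¹))⁻¹ * (y * h * y⁻¹) := by
    rw [mul_inv_eq_iff_eq_mul, mul_assoc, ← h4, inv_mul_cancel_left]
  rw [mul_assoc _ (tp h) (rp h), h3, ← mul_assoc (rp h), ← mul_assoc (rp h), h5]
  simp only [mul_assoc, inv_mul_cancel_left]

lemma th_coc (l : S2 F G →+ F) : IsCoc (th l) := by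
  classical
  intro a b h
  by_cases hh : IsOfFinOrder h
  · have hb : IsOfFinOrder (b * h * b⁻¹) := fin_conj.2 hh
    unfold th
    rw [if_pos hh, if_pos hh, if_pos hb, rp_conj]
    have e : a * b * h * (a * b)⁻¹ = a * (b * h * b⁻¹) * a⁻¹ := by group
    rw [e, ← phi_mul l (fin_rp.2 hh) _ (tp_comm b h)]
    · congr 1
      group
    · have := tp_comm a (b * h * b⁻¹)
      rwa [rp_conj] at this
  · have hb : ¬ IsOfFinOrder (b * h * b⁻¹) := fun h1 => hh (fin_conj.1 h1)
    unfold th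
    rw [if_neg hh, if_neg hh, if_neg hb, add_zero]

lemma th_val (l : S2 F G →+ F) {z h : G} (hh : IsOfFinOrder h) (hz : z * h = h * z) :
    th l z h = phi l h z := by
  have e : z * h * z⁻¹ = h := by rw [hz, mul_inv_cancel_right]
  have hc : (tp h)⁻¹ * z * tp h * rp h = rp h * ((tp h)⁻¹ * z * tp h) := by
    have := tp_comm z h
    rwa [e] at this
  unfold th
  rw [if_pos hh, e, ← phi_conj l (tp h) (fin_rp.2 hh) hc, tp_spec]
  congr 1
  group

/-- Every homomorphism from the second summand to `F` extends to `K_1(F[G])`, as zero on the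
first summand. -/
theorem exists_D (l : S2 F G →+ F) : ∃ D : K1 (MonoidAlgebra F G) →+ F,
    (∀ y, D (asm2 F G y) = l y) ∧ ∀ x, D (assembly F G x) = 0 := by
  refine ⟨DK (th_coc l), ?_, fun x => DK_assembly _ x⟩
  intro y
  have : (DK (th_coc l)).comp (asm2 F G) = l := by
    apply S2.ext
    intro x
    rw [AddMonoidHom.comp_apply, asm2_cls, DK_cls, dn_genUnit (th_coc l)]
    obtain ⟨H, z, hz, n, e, he⟩ := x
    rw [← mu_spec l H z hz n e he]
    unfold pr
    refine Finset.sum_congr rfl fun i _ => ?_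
    show ext1 (fun h => th l z h) (MonoidAlgebra.mapDomainRingHom F H.1.subtype (e i i)) = _
    rw [ext1_map]
    congr 1
    congr 1
    funext x
    have := H.2
    have hfin : IsOfFinOrder (x : G) := H.1.subtype.isOfFinOrder (isOfFinOrder_of_finite x)
    rw [phi_mu]
    exact th_val l hfin (hz x x.2)
  exact DFunLike.congr_fun this y

end

end Pool.Agent.Lib.MPb6f35e.W2
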