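import Pool.Agent.Lib.MP_b6f35e_al.WH.SpecR
import Pool.Agent.Lib.MP_b6f35e_al.W2.Lambda

/-!
# The full statement in degree one for fields of characteristic zero
-/

set_option autoImplicit false

noncomputable section

namespace Pool.Agent.Lib.MPb6f35e.W2

open Pool.Agent.Lib.MPb6f35e.WH

universe u v w

/-- An element killed by all homomorphisms to a field of characteristic zero has finite order. -/
lemma finOrder_of_hom (F : Type u) [Field F] [CharZero F] {M : Type w} [AddCommGroup M] (y : M)
    (h : ∀ l : M →+ F, l y = 0) : IsOfFinAddOrder y := by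
  set S := nonZeroDivisors ℤ
  set K := Localization S
  let _ : Field K := inferInstanceAs (Field (FractionRing ℤ))
  have hinj : Function.Injective (algebraMap ℤ F) := by
    intro a b hab
    simpa using hab
  let i : K →+* F := IsFractionRing.lift (A := ℤ) (K := FractionRing ℤ) hinj
  have h0 : (LocalizedModule.mk y 1 : LocalizedModule S M) = 0 := by
    by_contra hne
    have : ¬ ∀ φ : Module.Dual K (LocalizedModule S M), φ (LocalizedModule.mk y 1) = 0 := by
      intro hall
      exact hne ((Module.forall_dual_apply_eq_zero_iff K _).1 hall)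
    push Not at this
    obtain ⟨φ, hφ⟩ := this
    have h1 := h ((i.toAddMonoidHom.comp φ.toAddMonoidHom).comp
      (LocalizedModule.mkLinearMap S M).toAddMonoidHom)
    have h2 : i (φ (LocalizedModule.mk y 1)) = 0 := h1
    exact hφ ((map_eq_zero i).1 h2)
  have h1 := (LocalizedModule.mk_eq (S := S) (m := y) (m' := 0) (s := 1) (s' := 1)).1
    (by rw [h0, LocalizedModule.zero_mk])
  obtain ⟨u, hu⟩ := h1
  simp only [one_smul, smul_zero] at hu
  have hu0 : (u : ℤ) ≠ 0 := nonZeroDivisors.ne_zero u.2
  have h2 : (u : ℤ) • y = 0 := hu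
  rw [isOfFinAddOrder_iff_zsmul_eq_zero]
  exact ⟨u, hu0, h2⟩

/-- Fields of characteristic zero have finite proper quotients. -/
lemma finQuot_field (F : Type u) [Field F] [CharZero F] : FinQuot F where
  dom := inferInstance
  char0 := inferInstance
  fin a ha := by
    have : Ideal.span {a} = ⊤ := Ideal.span_singleton_eq_top.2 (isUnit_iff_ne_zero.2 ha)
    rw [this]
    infer_instance

/-- The second summand alone: `S2 → K_1(F[G]) / ColimK1` has torsion kernel. -/
theorem second (F : Type u) [Field F] [CharZero F] (G : Type v) [Group G] (x : ColimK1 F G)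
    (y : S2 F G) (h : IsOfFinAddOrder (assembly F G x + asm2 F G y)) : IsOfFinAddOrder y := by
  apply finOrder_of_hom F y
  intro l
  obtain ⟨D, hD, hD0⟩ := exists_D l
  have h1 : D (assembly F G x + asm2 F G y) = l y := by rw [map_add, hD, hD0, zero_add]
  obtain ⟨n, hn, h2⟩ := isOfFinAddOrder_iff_nsmul_eq_zero.1 h
  have h3 : (n : F) * l y = 0 := by
    rw [← h1, ← nsmul_eq_mul, ← map_nsmul, h2, map_zero]
  exact (mul_eq_zero.1 h3).resolve_left (Nat.cast_ne_zero.2 hn.ne')

/-- Degree one: `ColimK1 ⊕ S2 → K_1(F[G])` has torsion kernel. -/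
theorem degree_one_of (hW : SpecF2.{u, v}) (F : Type u) [Field F] [CharZero F] (G : Type v)
    [Group G] (x : ColimK1 F G) (y : S2 F G)
    (h : IsOfFinAddOrder (assembly F G x + asm2 F G y)) :
    IsOfFinAddOrder x ∧ IsOfFinAddOrder y := by
  have hy := second F G x y h
  refine ⟨?_, hy⟩
  have := finQuot_field F
  apply hW F G x
  have h1 : IsOfFinAddOrder (asm2 F G y) := (asm2 F G).isOfFinAddOrder hy
  have h2 : IsOfFinAddOrder (assembly F G x) := by
    have : assembly F G x = (assembly F G x + asm2 F G y) + -(asm2 F G y) := by abel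
    rw [this]
    exact h.add h1.neg
  exact (QuotientAddGroup.mk' (trivialUnits F G)).isOfFinAddOrder h2

end Pool.Agent.Lib.MPb6f35e.W2
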