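import Mathlib

/-!
# Idempotent matrices over a semisimple ring: regularity, primitive idempotents, Schur's lemma,
and invariants of idempotents
-/

set_option autoImplicit false

noncomputable section

namespace Pool.Agent.Lib.MPb6f35e.W2

universe u v w

section regular

variable {A : Type u} [Ring A]

lemma exists_pseudo {V W : Type v} [AddCommGroup V] [Module A V] [AddCommGroup W] [Module A W]
    [IsSemisimpleModule A V] [IsSemisimpleModule A W] (f : V →ₗ[A] W) :
    ∃ h : W →ₗ[A] V, ∀ x, f (h (f x)) = f x := by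
  obtain ⟨g, hg⟩ := IsSemisimpleModule.lifting_property f.rangeRestrict f.surjective_rangeRestrict
    LinearMap.id
  obtain ⟨h, hh⟩ := IsSemisimpleModule.extension_property (LinearMap.range f).subtype
    (Submodule.injective_subtype _) g
  refine ⟨h, fun x => ?_⟩
  have h1 : h (f x) = g (f.rangeRestrict x) := by
    rw [← hh]
    rfl
  have h2 := LinearMap.congr_fun hg (f.rangeRestrict x)
  rw [h1]
  have h3 := congrArg Subtype.val h2
  simpa using h3

/-- Matrices over a semisimple ring are von Neumann regular. -/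
lemma regular [IsSemisimpleRing A] {ι κ : Type} [Fintype ι] [DecidableEq ι] [Fintype κ]
    [DecidableEq κ] (y : Matrix ι κ A) : ∃ y' : Matrix κ ι A, y * y' * y = y := by
  obtain ⟨h, hh⟩ := exists_pseudo (Matrix.toLinearMapRight' y)
  refine ⟨LinearMap.toMatrixRight' h, ?_⟩
  apply Matrix.toLinearMapRight'.injective
  rw [Matrix.toLinearMapRight'_mul, Matrix.toLinearMapRight'_mul]
  have e : Matrix.toLinearMapRight' (LinearMap.toMatrixRight' h) = h :=
    LinearMap.toMatrixRight'.symm_apply_apply h
  rw [e]
  apply LinearMap.ext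
  intro x
  exact hh x

end regular

section prim

variable {A : Type u} [Ring A] {n m : ℕ}

/-- Primitive idempotents. -/
def Prim (e : Matrix (Fin n) (Fin n) A) : Prop :=
  e ≠ 0 ∧ e * e = e ∧ ∀ g : Matrix (Fin n) (Fin n) A, g * g = g → e * g = g → g * e = g →
    g = 0 ∨ g = e

/-- Murray-von Neumann equivalence. -/
def Eqv (e : Matrix (Fin n) (Fin n) A) (f : Matrix (Fin m) (Fin m) A) : Prop :=
  ∃ (a : Matrix (Fin n) (Fin m) A) (b : Matrix (Fin m) (Fin n) A), a * b = e ∧ b * a = f

/-- Schur's lemma. -/
lemma schur [IsSemisimpleRing A] {e : Matrix (Fin n) (Fin n) A} {f : Matrix (Fin m) (Fin m) A}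
    (he : Prim e) (hf : Prim f) (y : Matrix (Fin n) (Fin m) A) (hy : e * y * f ≠ 0) :
    Eqv e f := by
  set w := e * y * f with hw
  obtain ⟨w', hw'⟩ := regular w
  have ew : e * w = w := by rw [hw, ← Matrix.mul_assoc, ← Matrix.mul_assoc, he.2.1]
  have wf : w * f = w := by rw [hw, Matrix.mul_assoc, hf.2.1]
  set b := f * w' * e with hb
  have wb : w * b * w = w := by
    rw [hb]
    calc w * (f * w' * e) * w = (w * f) * w' * (e * w) := by simp only [Matrix.mul_assoc]
      _ = w := by rw [wf, ew, hw']
  have fb : f * b = b := by rw [hb, ← Matrix.mul_assoc, ← Matrix.mul_assoc, hf.2.1]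
  have be : b * e = b := by rw [hb, Matrix.mul_assoc, he.2.1]
  refine ⟨w, b, ?_, ?_⟩
  · rcases he.2.2 (w * b) (by rw [← Matrix.mul_assoc, wb]) (by rw [← Matrix.mul_assoc, ew])
      (by rw [Matrix.mul_assoc, be]) with h | h
    · exfalso
      apply hy
      rw [← wb, h, Matrix.zero_mul]
    · exact h
  · rcases hf.2.2 (b * w) (by rw [Matrix.mul_assoc, ← Matrix.mul_assoc w, wb]) (by rw [← Matrix.mul_assoc, fb])
      (by rw [Matrix.mul_assoc, wf]) with h | h
    · exfalso
      apply hy
      rw [← wb, Matrix.mul_assoc, h, Matrix.mul_zero]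
    · exact h

/-- Invariants of idempotent matrices with values in `V`: additive functions on `K_0`. -/
structure KF (A : Type u) [Ring A] (V : Type w) [AddCommGroup V] where
  /-- the value -/
  val : ∀ n : ℕ, Matrix (Fin n) (Fin n) A → V
  equiv : ∀ (m n : ℕ) (a : Matrix (Fin m) (Fin n) A) (b : Matrix (Fin n) (Fin m) A),
    a * b * (a * b) = a * b → b * a * (b * a) = b * a → val m (a * b) = val n (b * a)
  block : ∀ (m n : ℕ) (e : Matrix (Fin m) (Fin m) A) (f : Matrix (Fin n) (Fin n) A),
    e * e = e → f * f = f → val (m + n) (Matrix.reindex finSumFinEquiv finSumFinEquiv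
      (Matrix.fromBlocks e 0 0 f)) = val m e + val n f

variable {V : Type w} [AddCommGroup V]

lemma KF.add (l : KF A V) {e g : Matrix (Fin n) (Fin n) A} (he : e * e = e) (hg : g * g = g)
    (heg : e * g = 0) (hge : g * e = 0) : l.val n (e + g) = l.val n e + l.val n g := by
  rw [← l.block n n e g he hg]
  set a : Matrix (Fin n) (Fin (n + n)) A := Matrix.reindex (Equiv.refl _) finSumFinEquiv
    (Matrix.fromCols e g) with ha
  set b : Matrix (Fin (n + n)) (Fin n) A := Matrix.reindex finSumFinEquiv (Equiv.refl _)
    (Matrix.fromRows e g) with hb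
  have hab : a * b = e + g := by
    rw [ha, hb, Matrix.reindex_apply, Matrix.reindex_apply, Matrix.submatrix_mul_equiv,
      Matrix.fromCols_mul_fromRows, he, hg]
    rfl
  have hba : b * a = Matrix.reindex finSumFinEquiv finSumFinEquiv
      (Matrix.fromBlocks e 0 0 g) := by
    rw [ha, hb, Matrix.reindex_apply, Matrix.reindex_apply, Matrix.reindex_apply]
    rw [Matrix.submatrix_mul_equiv, Matrix.fromRows_mul_fromCols, he, hg, heg, hge]
  rw [← hab, ← hba]
  apply l.equiv
  · rw [hab, add_mul, mul_add, mul_add, he, hg, heg, hge, add_zero, zero_add]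
  · rw [hba, Matrix.reindex_apply, Matrix.submatrix_mul_equiv, Matrix.fromBlocks_multiply]
    simp [he, hg]

lemma KF.zero (l : KF A V) : l.val n 0 = 0 := by
  have := l.add (n := n) (e := 0) (g := 0) (by simp) (by simp) (by simp) (by simp)
  rw [add_zero] at this
  exact left_eq_add.1 this

lemma KF.eqv (l : KF A V) {e : Matrix (Fin n) (Fin n) A} {f : Matrix (Fin m) (Fin m) A}
    (he : e * e = e) (hf : f * f = f) (h : Eqv e f) : l.val n e = l.val m f := by
  obtain ⟨a, b, rfl, rfl⟩ := h
  exact l.equiv _ _ a b he hf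

/-- Induction on idempotents: a property of idempotents which holds for `0`, for primitive ones
and is additive holds for all, if there is a size function. -/
lemma prim_induction (P : Matrix (Fin n) (Fin n) A → Prop)
    (d : Matrix (Fin n) (Fin n) A → ℕ)
    (hd0 : ∀ e, e * e = e → d e = 0 → e = 0)
    (hd : ∀ e g, e * e = e → g * g = g → e * g = 0 → g * e = 0 → d (e + g) = d e + d g)
    (h0 : P 0) (hp : ∀ e, Prim e → P e)
    (ha : ∀ e g, e * e = e → g * g = g → e * g = 0 → g * e = 0 → P e → P g → P (e + g)) :
    ∀ e, e * e = e → P e := by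
  have key : ∀ (k : ℕ) (e : Matrix (Fin n) (Fin n) A), d e = k → e * e = e → P e := by
    intro k
    induction k using Nat.strong_induction_on with
    | _ k ih =>
      intro e hk he
      by_cases h1 : e = 0
      · rw [h1]; exact h0
      by_cases h2 : Prim e
      · exact hp e h2
      have h3 : ∃ g : Matrix (Fin n) (Fin n) A, g * g = g ∧ e * g = g ∧ g * e = g ∧ g ≠ 0 ∧
          g ≠ e := by
        by_contra hcon
        push Not at hcon
        apply h2
        refine ⟨h1, he, fun g hg heg hge => ?_⟩
        by_contra h4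
        push Not at h4
        exact h4.2 (hcon g hg heg hge h4.1)
      obtain ⟨g, hg, heg, hge, hg0, hge'⟩ := h3
      have i1 : (e - g) * (e - g) = e - g := by
        rw [sub_mul, mul_sub, mul_sub, he, heg, hge, hg, sub_self, sub_zero]
      have i2 : g * (e - g) = 0 := by rw [mul_sub, hge, hg, sub_self]
      have i3 : (e - g) * g = 0 := by rw [sub_mul, heg, hg, sub_self]
      have hsum : g + (e - g) = e := by abel
      have hdd := hd g (e - g) hg i1 i2 i3
      rw [hsum] at hdd
      have p1 : d g ≠ 0 := fun h => hg0 (hd0 g hg h)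
      have p2 : d (e - g) ≠ 0 := fun h => hge' (sub_eq_zero.1 (hd0 _ i1 h)).symm
      rw [← hsum]
      apply ha g (e - g) hg i1 i2 i3
      · exact ih (d g) (by omega) g rfl hg
      · exact ih (d (e - g)) (by omega) (e - g) rfl i1
  intro e he
  exact key (d e) e rfl he

end prim

end Pool.Agent.Lib.MPb6f35e.W2
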