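import Pool.Agent.Lib.MP_b6f35e_al.W2.Trace
import Pool.Agent.Lib.MP_b6f35e_al.W2.Prim

/-!
# The pairing of idempotent matrices over `F[H]`, `H` finite
-/

set_option autoImplicit false

noncomputable section

namespace Pool.Agent.Lib.MPb6f35e.W2

universe u v w

section pr

variable {F : Type u} [CommRing F] {H : Type v} [Group H] {ι κ : Type w} [Fintype ι] [Fintype κ]

/-- `Σ_h tr e(h) μ(h)` -/
def pr (μ : H → F) (e : Matrix ι ι (MonoidAlgebra F H)) : F := ∑ i, ext1 μ (e i i)

lemma pr_add (μ : H → F) (e f : Matrix ι ι (MonoidAlgebra F H)) :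
    pr μ (e + f) = pr μ e + pr μ f := by
  simp [pr, Finset.sum_add_distrib]

/-- Class functions. -/
def IsCls (μ : H → F) : Prop := ∀ x y, μ (x * y) = μ (y * x)

lemma ext1_comm {μ : H → F} (hμ : IsCls μ) (a b : MonoidAlgebra F H) :
    ext1 μ (a * b) = ext1 μ (b * a) := by
  induction a using MonoidAlgebra.induction_linear with
  | zero => simp
  | add x x' hx hx' => simp only [map_add, mul_add, add_mul, hx, hx']
  | single x r =>
    induction b using MonoidAlgebra.induction_linear with
    | zero => simp
    | add x x' hx hx' => simp only [map_add, mul_add, add_mul, hx, hx']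
    | single y s =>
      simp only [MonoidAlgebra.single_mul_single, ext1_single, hμ x y]
      ring

lemma pr_comm {μ : H → F} (hμ : IsCls μ) (a : Matrix ι κ (MonoidAlgebra F H))
    (b : Matrix κ ι (MonoidAlgebra F H)) : pr μ (a * b) = pr μ (b * a) := by
  unfold pr
  simp only [Matrix.mul_apply, map_sum]
  rw [Finset.sum_comm]
  exact Finset.sum_congr rfl fun i _ => Finset.sum_congr rfl fun j _ => ext1_comm hμ _ _

/-- A class function defines an invariant of idempotent matrices. -/
def prKF (μ : H → F) (hμ : IsCls μ) : KF (MonoidAlgebra F H) F where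
  val n e := pr μ e
  equiv m n a b _ _ := pr_comm hμ a b
  block m n e f _ _ := by
    unfold pr
    rw [← finSumFinEquiv.sum_comp, Fintype.sum_sum_type]
    simp [Matrix.reindex_apply, Matrix.submatrix_apply]

end pr

section chi

variable {F : Type u} [CommRing F] {H : Type v} [Group H] [Fintype H]

open Classical in
/-- `ν_h(k)` = number of `x` with `x⁻¹ h⁻¹ x = k` -/
def nu (F : Type u) [CommRing F] {H : Type v} [Group H] [Fintype H] (h k : H) : F :=
  ∑ x : H, if x⁻¹ * h⁻¹ * x = k then 1 else 0

open Classical in
lemma nu_conj (h k y : H) : nu F h (y * k * y⁻¹) = nu F h k := by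
  unfold nu
  rw [← Equiv.sum_comp (Equiv.mulRight y⁻¹)]
  refine Finset.sum_congr rfl fun x _ => ?_
  simp only [Equiv.coe_mulRight]
  congr 1
  apply propext
  constructor
  · intro h1
    have : y * (x⁻¹ * h⁻¹ * x) * y⁻¹ = y * k * y⁻¹ := by
      rw [← h1]; group
    simpa using this
  · intro h1
    rw [← h1]; group

lemma nu_cls (h : H) : IsCls (nu F h) := by
  intro x y
  have := nu_conj (F := F) h (x * y) x⁻¹
  rw [← this]
  congr 1
  group

lemma nu_symm_conj (h k y : H) : nu F (y * h * y⁻¹) k = nu F h k := by
  classical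
  unfold nu
  rw [← Equiv.sum_comp (Equiv.mulLeft y)]
  refine Finset.sum_congr rfl fun x _ => ?_
  simp only [Equiv.coe_mulLeft]
  have : (y * x)⁻¹ * (y * h * y⁻¹)⁻¹ * (y * x) = x⁻¹ * h⁻¹ * x := by group
  simp only [this]

variable {ι κ : Type w} [Fintype ι] [Fintype κ]

/-- The character of the module defined by `e`: `χ_e(h) = Σ_x tr e(x⁻¹ h⁻¹ x)`. -/
def chi (e : Matrix ι ι (MonoidAlgebra F H)) (h : H) : F := pr (nu F h) e

lemma chi_cls (e : Matrix ι ι (MonoidAlgebra F H)) : IsCls (chi e) := by
  intro x y
  unfold chi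
  have : nu F (x * y) = nu F (y * x) := by
    funext k
    rw [← nu_symm_conj (y * x) k x]
    congr 1
    group
  rw [this]

lemma chi_add (e f : Matrix ι ι (MonoidAlgebra F H)) : chi (e + f) = chi e + chi f := by
  funext h
  exact pr_add _ e f

omit [Group H] in
lemma ext1_eq (μ : H → F) (a : MonoidAlgebra F H) : ext1 μ a = ∑ k, a.coeff k * μ k := by
  classical
  induction a using MonoidAlgebra.induction_linear with
  | zero => simp
  | add x y hx hy => simp only [map_add, hx, hy, MonoidAlgebra.coeff_add, Finsupp.add_apply,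
      add_mul, Finset.sum_add_distrib]
  | single x r =>
    rw [ext1_single, Finset.sum_eq_single x]
    · simp
    · intro b _ hb
      rw [MonoidAlgebra.coeff_single, Finsupp.single_eq_of_ne hb, zero_mul]
    · intro h; exact absurd (Finset.mem_univ x) h

lemma ext1_nu (h : H) (a : MonoidAlgebra F H) :
    ext1 (nu F h) a = ∑ x, a.coeff (x⁻¹ * h⁻¹ * x) := by
  classical
  rw [ext1_eq]
  unfold nu
  simp only [Finset.mul_sum]
  rw [Finset.sum_comm]
  refine Finset.sum_congr rfl fun x _ => ?_
  simp

lemma coeff_sandwich (a c : MonoidAlgebra F H) (x : H) :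
    (a * MonoidAlgebra.single x 1 * c).coeff x = ∑ k, a.coeff k * c.coeff (x⁻¹ * k⁻¹ * x) := by
  classical
  induction a using MonoidAlgebra.induction_linear with
  | zero => simp
  | add y z hy hz => simp only [add_mul, MonoidAlgebra.coeff_add, Finsupp.add_apply, hy, hz,
      Finset.sum_add_distrib]
  | single y r =>
    induction c using MonoidAlgebra.induction_linear with
    | zero => simp
    | add z z' hz hz' => simp only [mul_add, MonoidAlgebra.coeff_add, Finsupp.add_apply, hz, hz',
        Finset.sum_add_distrib]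
    | single z s =>
      rw [MonoidAlgebra.single_mul_single, MonoidAlgebra.single_mul_single, mul_one,
        Finset.sum_eq_single y]
      · simp only [MonoidAlgebra.coeff_single, Finsupp.single_eq_same]
        by_cases h : y * x * z = x
        · have : z = x⁻¹ * y⁻¹ * x := by
            rw [← mul_inv_rev, eq_inv_mul_iff_mul_eq]
            exact h
          rw [h, Finsupp.single_eq_same, ← this, Finsupp.single_eq_same]
        · rw [Finsupp.single_eq_of_ne (Ne.symm h), Finsupp.single_eq_of_ne, mul_zero]
          intro h1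
          apply h
          rw [← h1]; group
      · intro k _ hk
        rw [MonoidAlgebra.coeff_single, Finsupp.single_eq_of_ne hk, zero_mul]
      · intro h; exact absurd (Finset.mem_univ y) h

/-- The linear map `y ↦ e y f`. -/
def LM {n m : ℕ} (e : Matrix (Fin n) (Fin n) (MonoidAlgebra F H))
    (f : Matrix (Fin m) (Fin m) (MonoidAlgebra F H)) :
    Matrix (Fin n) (Fin m) (MonoidAlgebra F H) →ₗ[F] Matrix (Fin n) (Fin m) (MonoidAlgebra F H) where
  toFun y := e * y * f
  map_add' x y := by rw [Matrix.mul_add, Matrix.add_mul]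
  map_smul' c x := by rw [Matrix.mul_smul, Matrix.smul_mul]; rfl

lemma LM_trace {n m : ℕ} (e : Matrix (Fin n) (Fin n) (MonoidAlgebra F H))
    (f : Matrix (Fin m) (Fin m) (MonoidAlgebra F H)) :
    LinearMap.trace F _ (LM e f) = pr (chi f) e := by
  classical
  set b := (MonoidAlgebra.basis H F).matrix (Fin n) (Fin m) with hb
  have hrepr : ∀ (M : Matrix (Fin n) (Fin m) (MonoidAlgebra F H)) (i : Fin n) (j : Fin m) (x : H),
      b.repr M (i, j, x) = (M i j).coeff x := by
    intro M i j x
    have : (Finsupp.lapply (i, j, x)).comp b.repr.toLinearMap =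
        ((Finsupp.lapply x).comp (MonoidAlgebra.coeffLinearEquiv F).toLinearMap).comp
          (((LinearMap.proj j).comp (LinearMap.proj i :
            (Matrix (Fin n) (Fin m) (MonoidAlgebra F H)) →ₗ[F] _))) := by
      apply b.ext
      rintro ⟨i', j', x'⟩
      simp only [LinearMap.comp_apply, LinearEquiv.coe_coe, Module.Basis.repr_self,
        Finsupp.lapply_apply]
      rw [hb, Module.Basis.matrix_apply, MonoidAlgebra.basis_apply]
      show _ = ((Matrix.single i' j' (MonoidAlgebra.single x' (1 : F)) i j)).coeff x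
      by_cases h1 : i' = i ∧ j' = j
      · obtain ⟨rfl, rfl⟩ := h1
        rw [Matrix.single_apply_same, MonoidAlgebra.coeff_single]
        simp [Finsupp.single_apply]
      · rw [Matrix.single_apply_of_ne _ _ _ _ _ h1, MonoidAlgebra.coeff_zero]
        simp only [Finsupp.coe_zero, Pi.zero_apply]
        rw [Finsupp.single_apply, if_neg]
        intro h2
        apply h1
        simp only [Prod.mk.injEq] at h2
        exact ⟨h2.1, h2.2.1⟩
    exact LinearMap.congr_fun this M
  rw [LinearMap.trace_eq_matrix_trace F b, Matrix.trace]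
  simp only [Matrix.diag_apply, LinearMap.toMatrix_apply]
  rw [Fintype.sum_prod_type]
  unfold pr
  refine Finset.sum_congr rfl fun i _ => ?_
  rw [Fintype.sum_prod_type, ext1_eq]
  have h1 : ∀ (j : Fin m) (x : H), b.repr (LM e f (b (i, j, x))) (i, j, x) =
      ∑ k, (e i i).coeff k * (f j j).coeff (x⁻¹ * k⁻¹ * x) := by
    intro j x
    rw [hrepr, ← coeff_sandwich]
    congr 2
    rw [hb, Module.Basis.matrix_apply, MonoidAlgebra.basis_apply]
    show (e * Matrix.single i j (MonoidAlgebra.single x (1 : F)) * f) i j = _
    rw [Matrix.mul_apply, Finset.sum_eq_single j]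
    · rw [Matrix.mul_apply, Finset.sum_eq_single i]
      · rw [Matrix.single_apply_same]
      · intro k _ hk
        rw [Matrix.single_apply_of_ne _ _ _ _ _ (fun h => hk h.1.symm), mul_zero]
      · intro h; exact absurd (Finset.mem_univ i) h
    · intro k _ hk
      rw [Matrix.mul_apply, Finset.sum_eq_zero, zero_mul]
      intro l _
      rw [Matrix.single_apply_of_ne _ _ _ _ _ (fun h => hk h.2.symm), mul_zero]
    · intro h; exact absurd (Finset.mem_univ j) h
  simp only [h1]
  unfold chi pr
  simp only [ext1_nu]
  simp only [Finset.mul_sum]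
  rw [Finset.sum_congr rfl fun j _ => Finset.sum_comm]
  rw [Finset.sum_comm]

end chi

end Pool.Agent.Lib.MPb6f35e.W2
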