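import Pool.Agent.Lib.MP_b6f35e_al.W2.Dual

/-!
# Restriction of characters along a homomorphism of finite groups
-/

set_option autoImplicit false

noncomputable section

namespace Pool.Agent.Lib.MPb6f35e.W2

universe u v w

section

variable {F : Type u} [Field F] [CharZero F] {H K : Type v} [Group H] [Fintype H]
  [Group K] [Fintype K]

omit [CharZero F] in
lemma coeff_mul_fin (a b : MonoidAlgebra F H) (g : H) :
    (a * b).coeff g = ∑ k, a.coeff k * b.coeff (k⁻¹ * g) := by
  classical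
  induction a using MonoidAlgebra.induction_linear with
  | zero => simp
  | add y z hy hz => simp only [add_mul, MonoidAlgebra.coeff_add, Finsupp.add_apply, hy, hz,
      Finset.sum_add_distrib]
  | single y r =>
    induction b using MonoidAlgebra.induction_linear with
    | zero => simp
    | add z z' hz hz' => simp only [mul_add, MonoidAlgebra.coeff_add, Finsupp.add_apply, hz, hz',
        Finset.sum_add_distrib]
    | single z s =>
      rw [MonoidAlgebra.single_mul_single, Finset.sum_eq_single y]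
      · simp only [MonoidAlgebra.coeff_single, Finsupp.single_eq_same]
        by_cases h : y * z = g
        · have : y⁻¹ * g = z := by rw [← h, inv_mul_cancel_left]
          rw [h, Finsupp.single_eq_same, this, Finsupp.single_eq_same]
        · rw [Finsupp.single_eq_of_ne (Ne.symm h), Finsupp.single_eq_of_ne, mul_zero]
          intro h1
          apply h
          rw [← h1, mul_inv_cancel_left]
      · intro k _ hk
        rw [MonoidAlgebra.coeff_single, Finsupp.single_eq_of_ne hk, zero_mul]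
      · intro h; exact absurd (Finset.mem_univ y) h

/-- `h ↦ a(k⁻¹ φ(h) l) / |H|` -/
def rs (φ : H →* K) (a : MonoidAlgebra F K) (k l : K) : MonoidAlgebra F H :=
  MonoidAlgebra.ofCoeff (Finsupp.equivFunOnFinite.symm fun h =>
    (Fintype.card H : F)⁻¹ * a.coeff (k⁻¹ * φ h * l))

omit [CharZero F] [Fintype K] in
lemma rs_coeff (φ : H →* K) (a : MonoidAlgebra F K) (k l : K) (h : H) :
    (rs φ a k l).coeff h = (Fintype.card H : F)⁻¹ * a.coeff (k⁻¹ * φ h * l) := rfl

lemma rs_mul (φ : H →* K) (a b : MonoidAlgebra F K) (k l : K) :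
    ∑ m, rs φ a k m * rs φ b m l = rs φ (a * b) k l := by
  have hc : (Fintype.card H : F) ≠ 0 := Nat.cast_ne_zero.2 Fintype.card_ne_zero
  apply MonoidAlgebra.coeff_injective
  ext h
  rw [MonoidAlgebra.coeff_sum, Finsupp.finsetSum_apply, rs_coeff, coeff_mul_fin]
  simp only [coeff_mul_fin, rs_coeff]
  rw [Finset.sum_comm]
  have h1 : ∀ h1 : H, ∑ m, (Fintype.card H : F)⁻¹ * a.coeff (k⁻¹ * φ h1 * m) *
      ((Fintype.card H : F)⁻¹ * b.coeff (m⁻¹ * φ (h1⁻¹ * h) * l)) =
      (Fintype.card H : F)⁻¹ * ((Fintype.card H : F)⁻¹ *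
        ∑ m, a.coeff m * b.coeff (m⁻¹ * (k⁻¹ * φ h * l))) := by
    intro h1
    rw [Finset.mul_sum, Finset.mul_sum, ← Equiv.sum_comp (Equiv.mulLeft (k⁻¹ * φ h1))
      (fun m => (Fintype.card H : F)⁻¹ * ((Fintype.card H : F)⁻¹ *
        (a.coeff m * b.coeff (m⁻¹ * (k⁻¹ * φ h * l)))))]
    refine Finset.sum_congr rfl fun m _ => ?_
    simp only [Equiv.coe_mulLeft]
    have e : (k⁻¹ * φ h1 * m)⁻¹ * (k⁻¹ * φ h * l) = m⁻¹ * φ (h1⁻¹ * h) * l := by
      rw [_root_.map_mul, map_inv]
      group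
    rw [e]
    ring
  simp only [h1]
  rw [Finset.sum_const, Finset.card_univ, nsmul_eq_mul, ← mul_assoc, mul_inv_cancel₀ hc, one_mul]

/-- restriction of an idempotent matrix -/
def rsM (φ : H →* K) {n : ℕ} (e : Matrix (Fin n) (Fin n) (MonoidAlgebra F K)) :
    Matrix (Fin n × K) (Fin n × K) (MonoidAlgebra F H) :=
  Matrix.of fun i j => rs φ (e i.1 j.1) i.2 j.2

omit [CharZero F] [Fintype K] in
lemma rs_add (φ : H →* K) (a b : MonoidAlgebra F K) (k l : K) :
    rs φ (a + b) k l = rs φ a k l + rs φ b k l := by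
  apply MonoidAlgebra.coeff_injective
  ext h
  rw [MonoidAlgebra.coeff_add, Finsupp.add_apply, rs_coeff, rs_coeff, rs_coeff,
    MonoidAlgebra.coeff_add, Finsupp.add_apply, mul_add]

omit [CharZero F] [Fintype K] in
lemma rs_sum (φ : H →* K) {ι : Type} (s : Finset ι) (a : ι → MonoidAlgebra F K) (k l : K) :
    rs φ (∑ i ∈ s, a i) k l = ∑ i ∈ s, rs φ (a i) k l := by
  classical
  induction s using Finset.induction_on with
  | empty =>
    simp only [Finset.sum_empty]
    apply MonoidAlgebra.coeff_injective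
    ext h
    rw [rs_coeff]
    simp
  | insert i s hi ih => rw [Finset.sum_insert hi, Finset.sum_insert hi, rs_add, ih]

lemma rsM_idem (φ : H →* K) {n : ℕ} {e : Matrix (Fin n) (Fin n) (MonoidAlgebra F K)}
    (he : e * e = e) : rsM φ e * rsM φ e = rsM φ e := by
  ext1 i j
  rw [Matrix.mul_apply]
  show _ = rs φ (e i.1 j.1) i.2 j.2
  conv_rhs => rw [← he, Matrix.mul_apply, rs_sum]
  rw [Fintype.sum_prod_type]
  refine Finset.sum_congr rfl fun m _ => ?_
  exact rs_mul φ (e i.1 m) (e m j.1) i.2 j.2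

lemma pr_rsM (φ : H →* K) {n : ℕ} (e : Matrix (Fin n) (Fin n) (MonoidAlgebra F K)) (h : H) :
    pr (nu F h) (rsM φ e) = chi e (φ h) := by
  have hc : (Fintype.card H : F) ≠ 0 := Nat.cast_ne_zero.2 Fintype.card_ne_zero
  unfold chi pr
  rw [Fintype.sum_prod_type]
  refine Finset.sum_congr rfl fun i _ => ?_
  have h1 : ∀ k : K, ext1 (nu F h) (rsM φ e (i, k) (i, k)) =
      ∑ x, (Fintype.card H : F)⁻¹ * (e i i).coeff (k⁻¹ * φ (x⁻¹ * h⁻¹ * x) * k) := by
    intro k
    rw [ext1_nu]
    rfl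
  simp only [h1, ext1_nu]
  rw [Finset.sum_comm]
  have h2 : ∀ x : H, ∑ k, (Fintype.card H : F)⁻¹ *
      (e i i).coeff (k⁻¹ * φ (x⁻¹ * h⁻¹ * x) * k) =
      (Fintype.card H : F)⁻¹ * ∑ k, (e i i).coeff (k⁻¹ * (φ h)⁻¹ * k) := by
    intro x
    rw [Finset.mul_sum, ← Equiv.sum_comp (Equiv.mulLeft (φ x))
      (fun k => (Fintype.card H : F)⁻¹ * (e i i).coeff (k⁻¹ * (φ h)⁻¹ * k))]
    refine Finset.sum_congr rfl fun k _ => ?_
    simp only [Equiv.coe_mulLeft]
    have e : (φ x * k)⁻¹ * (φ h)⁻¹ * (φ x * k) = k⁻¹ * φ (x⁻¹ * h⁻¹ * x) * k := by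
      simp only [_root_.map_mul, map_inv]
      group
    rw [e]
  simp only [h2]
  rw [Finset.sum_const, Finset.card_univ, nsmul_eq_mul, ← mul_assoc, mul_inv_cancel₀ hc, one_mul]

omit [CharZero F] in
lemma pr_reindex {ι : Type v} [Fintype ι] {m : ℕ} (σ : ι ≃ Fin m) (μ : H → F)
    (e : Matrix ι ι (MonoidAlgebra F H)) : pr μ (Matrix.reindex σ σ e) = pr μ e := by
  unfold pr
  rw [← Equiv.sum_comp σ]
  refine Finset.sum_congr rfl fun i _ => ?_
  rw [Matrix.reindex_apply, Matrix.submatrix_apply, Equiv.symm_apply_apply]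

/-- The span of characters is stable under restriction. -/
lemma XX_pull (φ : H →* K) {μ : K → F} (h : μ ∈ XX F K) : (fun x => μ (φ x)) ∈ XX F H := by
  unfold XX at h
  induction h using Submodule.span_induction with
  | mem x hx =>
    obtain ⟨n, e, he, rfl⟩ := hx
    classical
    set σ := Fintype.equivFin (Fin n × K) with hσ
    apply Submodule.subset_span
    refine ⟨_, Matrix.reindex σ σ (rsM φ e), ?_, ?_⟩
    · rw [Matrix.reindex_apply, Matrix.submatrix_mul_equiv, rsM_idem φ he]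
    · funext h
      show pr (nu F h) _ = _
      rw [pr_reindex, pr_rsM]
  | zero => exact Submodule.zero_mem _
  | add μ ν _ _ h1 h2 => exact Submodule.add_mem _ h1 h2
  | smul c μ _ h1 => exact Submodule.smul_mem _ c h1

end

end Pool.Agent.Lib.MPb6f35e.W2
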