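import Pool.Agent.Lib.MP_b6f35e_al.W2.Asm

/-!
# The Dennis trace against a cocycle of the conjugation groupoid

`θ (a b, h) = θ (a, b h b⁻¹) + θ (b, h)`; `D_θ(u) = Σ tr(u⁻¹(x) u(y)) θ(y, x y)` is a homomorphism
`K_1(F[G]) → F`; it vanishes on the image of `K_1(F[H])`, `H` finite, and its value on
`1 - e + z e` is `Σ_h tr e(h) θ(z, h)`.
-/

set_option autoImplicit false

noncomputable section

namespace Pool.Agent.Lib.MPb6f35e.W2

open Pool.Agent.Lib.MPb6f35e.WH

universe u v w

section bil

variable {F : Type u} [CommRing F] {G : Type v} [Group G]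

/-- Additive extension of a family of homomorphisms `F → V`. -/
def lin {V : Type w} [AddCommMonoid V] (f : G → F →+ V) : MonoidAlgebra F G →+ V :=
  (Finsupp.liftAddHom f).comp MonoidAlgebra.coeffAddEquiv.toAddMonoidHom

omit [Group G] in
@[simp] lemma lin_single {V : Type w} [AddCommMonoid V] (f : G → F →+ V) (g : G) (r : F) :
    lin f (MonoidAlgebra.single g r) = f g r := by
  show Finsupp.liftAddHom f (Finsupp.single g r) = _
  simp

/-- Linear extension of a function `G → F`. -/
def ext1 (β : G → F) : MonoidAlgebra F G →+ F :=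
  lin fun g => AddMonoidHom.mulRight (β g)

omit [Group G] in
@[simp] lemma ext1_single (β : G → F) (g : G) (r : F) :
    ext1 β (MonoidAlgebra.single g r) = r * β g := by
  simp [ext1]

/-- Bilinear extension of a function `G × G → F`. -/
def bil (c : G → G → F) : MonoidAlgebra F G →+ MonoidAlgebra F G →+ F :=
  lin fun x => AddMonoidHom.mk' (fun r => lin fun y => AddMonoidHom.mulLeft (r * c x y))
    (by
      intro r s
      apply DFunLike.ext
      intro b
      rw [AddMonoidHom.add_apply]
      induction b using MonoidAlgebra.induction_linear with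
      | zero => simp
      | add a b ha hb => rw [map_add, map_add, map_add, ha, hb]; abel
      | single y t => simp only [lin_single, AddMonoidHom.coe_mulLeft]; ring)

omit [Group G] in
@[simp] lemma bil_single (c : G → G → F) (x y : G) (r s : F) :
    bil c (MonoidAlgebra.single x r) (MonoidAlgebra.single y s) = r * s * c x y := by
  simp only [bil, lin_single, AddMonoidHom.mk'_apply, AddMonoidHom.coe_mulLeft]
  ring

variable {ι κ τ : Type w} [Fintype ι] [Fintype κ] [Fintype τ]

/-- The bilinear form on matrices: `Σ tr(a(x) b(y)) c(x, y)`. -/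
def mb (c : G → G → F) (a : Matrix ι κ (MonoidAlgebra F G)) (b : Matrix κ ι (MonoidAlgebra F G)) :
    F :=
  ∑ i, ∑ j, bil c (a i j) (b j i)

lemma mb_add_left (c : G → G → F) (a a' : Matrix ι κ (MonoidAlgebra F G))
    (b : Matrix κ ι (MonoidAlgebra F G)) : mb c (a + a') b = mb c a b + mb c a' b := by
  simp [mb, Finset.sum_add_distrib]

lemma mb_add_right (c : G → G → F) (a : Matrix ι κ (MonoidAlgebra F G))
    (b b' : Matrix κ ι (MonoidAlgebra F G)) : mb c a (b + b') = mb c a b + mb c a b' := by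
  simp [mb, Finset.sum_add_distrib]

lemma mb_zero_left (c : G → G → F) (b : Matrix κ ι (MonoidAlgebra F G)) :
    mb c (0 : Matrix ι κ (MonoidAlgebra F G)) b = 0 := by
  simp [mb]

lemma mb_zero_right (c : G → G → F) (a : Matrix ι κ (MonoidAlgebra F G)) :
    mb c a (0 : Matrix κ ι (MonoidAlgebra F G)) = 0 := by
  simp [mb]

end bil

section cocycle

variable {F : Type u} [CommRing F] {G : Type v} [Group G]

/-- Cocycles of the conjugation groupoid. -/
def IsCoc (θ : G → G → F) : Prop :=
  ∀ a b h, θ (a * b) h = θ a (b * h * b⁻¹) + θ b h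

/-- The coefficient function `(x, y) ↦ θ(y, x y)`. -/
def cf (θ : G → G → F) : G → G → F := fun x y => θ y (x * y)

lemma bil_coc {θ : G → G → F} (hθ : IsCoc θ) (x y z : MonoidAlgebra F G) :
    bil (cf θ) x (y * z) = bil (cf θ) (z * x) y + bil (cf θ) (x * y) z := by
  induction x using MonoidAlgebra.induction_linear with
  | zero => simp
  | add x x' hx hx' =>
    simp only [map_add, AddMonoidHom.add_apply, mul_add, add_mul, hx, hx']
    abel
  | single x r =>
    induction y using MonoidAlgebra.induction_linear with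
    | zero => simp
    | add y y' hy hy' =>
      simp only [map_add, AddMonoidHom.add_apply, mul_add, add_mul, hy, hy']
      abel
    | single y s =>
      induction z using MonoidAlgebra.induction_linear with
      | zero => simp
      | add z z' hz hz' =>
        simp only [map_add, AddMonoidHom.add_apply, mul_add, add_mul, hz, hz']
        abel
      | single z t =>
        simp only [MonoidAlgebra.single_mul_single, bil_single, cf]
        have := hθ y z (x * (y * z))
        rw [this]
        have e1 : z * (x * (y * z)) * z⁻¹ = z * x * y := by group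
        rw [e1, mul_assoc x y z]
        ring

variable {ι κ τ : Type w} [Fintype ι] [Fintype κ] [Fintype τ]

lemma mb_coc {θ : G → G → F} (hθ : IsCoc θ) (a : Matrix ι κ (MonoidAlgebra F G))
    (b : Matrix κ τ (MonoidAlgebra F G)) (c : Matrix τ ι (MonoidAlgebra F G)) :
    mb (cf θ) a (b * c) = mb (cf θ) (c * a) b + mb (cf θ) (a * b) c := by
  have h1 : mb (cf θ) a (b * c) = ∑ i, ∑ j, ∑ k, (bil (cf θ) (c k i * a i j) (b j k) +
      bil (cf θ) (a i j * b j k) (c k i)) := by
    unfold mb
    refine Finset.sum_congr rfl fun i _ => Finset.sum_congr rfl fun j _ => ?_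
    rw [Matrix.mul_apply, map_sum]
    exact Finset.sum_congr rfl fun k _ => bil_coc hθ _ _ _
  have h2 : mb (cf θ) (c * a) b = ∑ k, ∑ j, ∑ i, bil (cf θ) (c k i * a i j) (b j k) := by
    unfold mb
    refine Finset.sum_congr rfl fun i _ => Finset.sum_congr rfl fun j _ => ?_
    rw [Matrix.mul_apply, map_sum, AddMonoidHom.finsetSum_apply]
  have h3 : mb (cf θ) (a * b) c = ∑ i, ∑ k, ∑ j, bil (cf θ) (a i j * b j k) (c k i) := by
    unfold mb
    refine Finset.sum_congr rfl fun i _ => Finset.sum_congr rfl fun j _ => ?_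
    rw [Matrix.mul_apply, map_sum, AddMonoidHom.finsetSum_apply]
  rw [h1, h2, h3]
  simp only [Finset.sum_add_distrib]
  congr 1
  · rw [Finset.sum_comm' (t' := Finset.univ) (s' := fun _ => Finset.univ) (by simp)]
    rw [Finset.sum_comm]
    rw [Finset.sum_comm]
    have : ∀ j, ∑ i, ∑ k, bil (cf θ) (c k i * a i j) (b j k) =
        ∑ k, ∑ i, bil (cf θ) (c k i * a i j) (b j k) := fun j => Finset.sum_comm
    simp only [this]
    rw [Finset.sum_comm]
  · refine Finset.sum_congr rfl fun i _ => ?_
    rw [Finset.sum_comm]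

/-! ### the homomorphism on `K_1` -/

lemma mb_one {θ : G → G → F} (hθ : IsCoc θ) [DecidableEq ι] (f : Matrix ι ι (MonoidAlgebra F G))
    (hf : f * f = f) : mb (cf θ) f f = 0 := by
  have := mb_coc hθ f f f
  rw [hf] at this
  exact left_eq_add.1 this

/-- `D_θ(u) = Σ tr(u⁻¹(x) u(y)) θ(y, x y)`. -/
def dn (θ : G → G → F) [DecidableEq ι] (u : (Matrix ι ι (MonoidAlgebra F G))ˣ) : F :=
  mb (cf θ) ((u⁻¹ : (Matrix ι ι (MonoidAlgebra F G))ˣ) : Matrix ι ι (MonoidAlgebra F G))
    (u : Matrix ι ι (MonoidAlgebra F G))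

lemma dn_mul {θ : G → G → F} (hθ : IsCoc θ) [DecidableEq ι]
    (u v : (Matrix ι ι (MonoidAlgebra F G))ˣ) : dn θ (u * v) = dn θ u + dn θ v := by
  unfold dn
  rw [Units.val_mul, mb_coc hθ, mul_inv_rev, Units.val_mul, ← mul_assoc, Units.mul_inv, one_mul,
    mul_assoc, Units.inv_mul, mul_one]

lemma dn_block {θ : G → G → F} (hθ : IsCoc θ) {m n : ℕ}
    (u : (Matrix (Fin m) (Fin m) (MonoidAlgebra F G))ˣ)
    (v : (Matrix (Fin n) (Fin n) (MonoidAlgebra F G))ˣ)
    (w : (Matrix (Fin (m + n)) (Fin (m + n)) (MonoidAlgebra F G))ˣ)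
    (x : Matrix (Fin m) (Fin n) (MonoidAlgebra F G))
    (h : (w : Matrix (Fin (m + n)) (Fin (m + n)) (MonoidAlgebra F G)) =
      Matrix.reindex finSumFinEquiv finSumFinEquiv
        (Matrix.fromBlocks (u : Matrix (Fin m) (Fin m) (MonoidAlgebra F G)) x 0
          (v : Matrix (Fin n) (Fin n) (MonoidAlgebra F G)))) :
    dn θ w = dn θ u + dn θ v := by
  have hw : w = KM.rI finSumFinEquiv (KM.bU u v x) := by
    apply Units.ext
    rw [h]
    rfl
  have hi : ((w⁻¹ : (Matrix (Fin (m + n)) (Fin (m + n)) (MonoidAlgebra F G))ˣ) :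
      Matrix (Fin (m + n)) (Fin (m + n)) (MonoidAlgebra F G)) =
      Matrix.reindex finSumFinEquiv finSumFinEquiv
        (Matrix.fromBlocks ((u⁻¹ : (Matrix (Fin m) (Fin m) (MonoidAlgebra F G))ˣ) :
            Matrix (Fin m) (Fin m) (MonoidAlgebra F G))
          (-(((u⁻¹ : (Matrix (Fin m) (Fin m) (MonoidAlgebra F G))ˣ) :
            Matrix (Fin m) (Fin m) (MonoidAlgebra F G)) * x *
            ((v⁻¹ : (Matrix (Fin n) (Fin n) (MonoidAlgebra F G))ˣ) :
              Matrix (Fin n) (Fin n) (MonoidAlgebra F G)))) 0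
          ((v⁻¹ : (Matrix (Fin n) (Fin n) (MonoidAlgebra F G))ˣ) :
            Matrix (Fin n) (Fin n) (MonoidAlgebra F G))) := by
    rw [hw]
    rfl
  unfold dn mb
  rw [h, hi]
  simp only [← finSumFinEquiv.sum_comp, Fintype.sum_sum_type, Matrix.reindex_apply,
    Matrix.submatrix_apply, Equiv.symm_apply_apply, Matrix.fromBlocks_apply₁₁,
    Matrix.fromBlocks_apply₁₂, Matrix.fromBlocks_apply₂₁, Matrix.fromBlocks_apply₂₂,
    Matrix.zero_apply, map_zero, Finset.sum_const_zero, AddMonoidHom.zero_apply, add_zero,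
    zero_add]

/-- The homomorphism `K_1(F[G]) → F` defined by a cocycle. -/
def DK {θ : G → G → F} (hθ : IsCoc θ) : K1 (MonoidAlgebra F G) →+ F :=
  K1.lift (fun _ u => dn θ u) (by
    rintro x (⟨n, u, v⟩ | ⟨m, n, u, v, w, y, h⟩)
    · simp only [map_sub, FreeAbelianGroup.lift_apply_of, dn_mul hθ]
      abel
    · simp only [map_sub, FreeAbelianGroup.lift_apply_of, dn_block hθ u v w y h]
      abel)

@[simp] lemma DK_cls {θ : G → G → F} (hθ : IsCoc θ) {n : ℕ}
    (u : (Matrix (Fin n) (Fin n) (MonoidAlgebra F G))ˣ) : DK hθ (K1.cls u) = dn θ u :=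
  K1.lift_cls _ _ _

/-! ### the value on `1 - e + z e` -/

lemma coc_one {θ : G → G → F} (hθ : IsCoc θ) (h : G) : θ 1 h = 0 := by
  have := hθ 1 1 h
  simpa using this

lemma bil_z {θ : G → G → F} (z : G) (H : FinSub G) (hz : ∀ h ∈ H.1, z * h = h * z)
    (a : MonoidAlgebra F H.1) :
    bil (cf θ) (((gUnit F z)⁻¹ : (MonoidAlgebra F G)ˣ) * toG H a)
      (gUnit F z : MonoidAlgebra F G) = ext1 (fun h => θ z h) (toG H a) := by
  have e1 : (gUnit F z : MonoidAlgebra F G) = MonoidAlgebra.single z 1 := rfl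
  have e2 : (((gUnit F z)⁻¹ : (MonoidAlgebra F G)ˣ) : MonoidAlgebra F G) =
    MonoidAlgebra.single z⁻¹ (1 : F) := rfl
  rw [e1, e2]
  induction a using MonoidAlgebra.induction_linear with
  | zero => simp
  | add x y hx hy => simp only [map_add, mul_add, AddMonoidHom.add_apply, hx, hy]
  | single x r =>
    have : z⁻¹ * (x : G) * z = x := by
      rw [mul_assoc, ← hz x x.2, inv_mul_cancel_left]
    simp [toG, MonoidAlgebra.single_mul_single, cf, this]

lemma dn_genUnit {θ : G → G → F} (hθ : IsCoc θ) (x : Gen F G) :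
    dn θ (genUnit x) = ∑ i, ext1 (fun h => θ x.z h) (toG x.H (x.e i i)) := by
  classical
  set E : Matrix (Fin x.n) (Fin x.n) (MonoidAlgebra F G) := x.e.map (toG x.H) with hE
  have hEE : E * E = E := idem_map _ x.idem
  set f : Matrix (Fin x.n) (Fin x.n) (MonoidAlgebra F G) := 1 - E with hf
  have hfE : f * E = 0 := by rw [hf, sub_mul, one_mul, hEE, sub_self]
  have hEf : E * f = 0 := by rw [hf, mul_sub, mul_one, hEE, sub_self]
  have hff : f * f = f := by
    rw [hf, mul_sub, mul_one, ← hf, hfE, sub_zero]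
  set z : MonoidAlgebra F G := (gUnit F x.z : MonoidAlgebra F G) with hz
  set y : MonoidAlgebra F G := (((gUnit F x.z)⁻¹ : (MonoidAlgebra F G)ˣ) : MonoidAlgebra F G)
    with hy
  have hzE : ∀ i j, z * E i j = E i j * z := fun i j => comm_toG x.H x.comm (x.e i j)
  have hyE : ∀ i j, y * E i j = E i j * y := fun i j =>
    ((show Commute z (E i j) from hzE i j).units_inv_left).eq
  have hzf : ∀ i j, z * f i j = f i j * z := by
    intro i j
    rw [hf, Matrix.sub_apply, mul_sub, sub_mul, hzE]
    by_cases hij : i = j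
    · subst hij; simp
    · simp [Matrix.one_apply_ne hij]
  have hyf : ∀ i j, y * f i j = f i j * y := fun i j =>
    ((show Commute z (f i j) from hzf i j).units_inv_left).eq
  have hu : ((genUnit x : (Matrix (Fin x.n) (Fin x.n) (MonoidAlgebra F G))ˣ) :
      Matrix (Fin x.n) (Fin x.n) (MonoidAlgebra F G)) = f + z • E := by
    show 1 + (z - 1) • E = _
    rw [sub_smul, one_smul, hf]
    abel
  have hv : (((genUnit x)⁻¹ : (Matrix (Fin x.n) (Fin x.n) (MonoidAlgebra F G))ˣ) :
      Matrix (Fin x.n) (Fin x.n) (MonoidAlgebra F G)) = f + y • E := by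
    show 1 + (y - 1) • E = _
    rw [sub_smul, one_smul, hf]
    abel
  unfold dn
  rw [hu, hv, mb_add_left, mb_add_right, mb_add_right, mb_one hθ f hff]
  have t1 : mb (cf θ) f (z • E) = 0 := by
    have h1 : z • E = (z • E) * E := by rw [Matrix.smul_mul, hEE]
    rw [h1, mb_coc hθ, hEf, mb_zero_left, mul_smul_of_comm hzf, hfE, smul_zero, mb_zero_left,
      add_zero]
  have t2 : mb (cf θ) (y • E) f = 0 := by
    have h1 : f = f * f := hff.symm
    rw [h1, mb_coc hθ, mul_smul_of_comm hyf, hfE, smul_zero, mb_zero_left, Matrix.smul_mul, hEf,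
      smul_zero, mb_zero_left, add_zero]
  have t3 : mb (cf θ) (y • E) (z • E) =
      mb (cf θ) (y • E) (Matrix.scalar (Fin x.n) z) := by
    have h1 : z • E = Matrix.scalar (Fin x.n) z * E := by
      ext1 i j
      rw [Matrix.scalar_apply, Matrix.diagonal_mul, Matrix.smul_apply, smul_eq_mul]
    rw [h1, mb_coc hθ, mul_smul_of_comm hyE, hEE]
    have h2 : (y • E) * Matrix.scalar (Fin x.n) z = E := by
      ext1 i j
      rw [Matrix.scalar_apply, Matrix.mul_diagonal, Matrix.smul_apply, smul_eq_mul, mul_assoc,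
        ← hzE, ← mul_assoc, hy, hz, Units.inv_mul, one_mul]
    rw [h2, mb_one hθ E hEE, add_zero]
  rw [t1, t2, t3, add_zero, zero_add, zero_add]
  unfold mb
  refine Finset.sum_congr rfl fun i _ => ?_
  rw [Finset.sum_eq_single i]
  · rw [Matrix.scalar_apply, Matrix.diagonal_apply_eq, Matrix.smul_apply, smul_eq_mul]
    exact bil_z x.z x.H x.comm (x.e i i)
  · intro j _ hij
    rw [Matrix.scalar_apply, Matrix.diagonal_apply_ne _ hij, map_zero]
  · intro h
    exact absurd (Finset.mem_univ i) h

end cocycle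

/-! ### vanishing on the image of finite subgroups -/

section finite

variable {F : Type u} [Field F] [CharZero F] {G : Type v} [Group G]

open Classical in
/-- On a finite subgroup a cocycle is a coboundary. -/
lemma coc_finite {θ : G → G → F} (hθ : IsCoc θ) (H : FinSub G) :
    ∃ β : H.1 → F, ∀ y h : H.1, θ y h = β (y * h * y⁻¹) - β h := by
  have := H.2
  have : Fintype H.1 := Fintype.ofFinite _
  refine ⟨fun h => -(∑ w : H.1, θ w h) / (Fintype.card H.1 : F), fun y h => ?_⟩
  have hc : (Fintype.card H.1 : F) ≠ 0 := Nat.cast_ne_zero.2 Fintype.card_ne_zero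
  have h1 : ∑ w : H.1, θ ((w : G) * y) h = ∑ w : H.1, θ w h := by
    have := Equiv.sum_comp (Equiv.mulRight y) (fun w : H.1 => θ (w : G) (h : G))
    simpa using this
  have h2 : ∑ w : H.1, θ ((w : G) * y) h =
      ∑ w : H.1, θ w ((y : G) * h * (y : G)⁻¹) + (Fintype.card H.1 : F) * θ y h := by
    simp only [hθ _ (y : G) (h : G), Finset.sum_add_distrib, Finset.sum_const, Finset.card_univ,
      nsmul_eq_mul]
  rw [h1] at h2
  field_simp
  have e : (((y * h * y⁻¹ : H.1)) : G) = (y : G) * h * (y : G)⁻¹ := by simp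
  rw [e]
  linear_combination -h2

omit [CharZero F] in
lemma bil_finite {θ : G → G → F} (H : FinSub G) (β : H.1 → F)
    (hβ : ∀ y h : H.1, θ y h = β (y * h * y⁻¹) - β h) (a b : MonoidAlgebra F H.1) :
    bil (cf θ) (toG H a) (toG H b) = ext1 β (b * a) - ext1 β (a * b) := by
  induction a using MonoidAlgebra.induction_linear with
  | zero => simp
  | add x x' hx hx' =>
    simp only [map_add, AddMonoidHom.add_apply, mul_add, add_mul, hx, hx']
    abel
  | single x r =>
    induction b using MonoidAlgebra.induction_linear with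
    | zero => simp
    | add y y' hy hy' =>
      simp only [map_add, mul_add, add_mul, hy, hy']
      abel
    | single y s =>
      have h1 := hβ y (x * y)
      have e : y * (x * y) * y⁻¹ = y * x := by group
      rw [e] at h1
      have e2 : ((x * y : H.1) : G) = (x : G) * y := rfl
      rw [e2] at h1
      simp only [toG, MonoidAlgebra.mapDomainRingHom_apply, MonoidAlgebra.mapDomain_single,
        bil_single, cf, MonoidAlgebra.single_mul_single, ext1_single, Subgroup.coe_subtype, h1]
      ring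

lemma dn_finite {θ : G → G → F} (hθ : IsCoc θ) (H : FinSub G) {n : ℕ}
    (u : (Matrix (Fin n) (Fin n) (MonoidAlgebra F H.1))ˣ) :
    DK hθ (K1.map (MonoidAlgebra.mapDomainRingHom F H.1.subtype) (K1.cls u)) = 0 := by
  classical
  obtain ⟨β, hβ⟩ := coc_finite hθ H
  rw [K1.map_cls, DK_cls]
  unfold dn mb
  have h1 : ∀ i j, ((((Units.map ((MonoidAlgebra.mapDomainRingHom F
      H.1.subtype).mapMatrix).toMonoidHom u)⁻¹ : (Matrix (Fin n) (Fin n) (MonoidAlgebra F G))ˣ) :
      Matrix (Fin n) (Fin n) (MonoidAlgebra F G)) i j) =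
      toG H (((u⁻¹ : (Matrix (Fin n) (Fin n) (MonoidAlgebra F H.1))ˣ) :
        Matrix (Fin n) (Fin n) (MonoidAlgebra F H.1)) i j) := fun i j => rfl
  have h2 : ∀ i j, (((Units.map ((MonoidAlgebra.mapDomainRingHom F
      H.1.subtype).mapMatrix).toMonoidHom u : (Matrix (Fin n) (Fin n) (MonoidAlgebra F G))ˣ) :
      Matrix (Fin n) (Fin n) (MonoidAlgebra F G)) i j) =
      toG H ((u : Matrix (Fin n) (Fin n) (MonoidAlgebra F H.1)) i j) := fun i j => rfl
  simp only [h1, h2, bil_finite H β hβ, Finset.sum_sub_distrib]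
  have h3 : ∑ i, ∑ j, ext1 β ((u : Matrix (Fin n) (Fin n) (MonoidAlgebra F H.1)) j i *
      ((u⁻¹ : (Matrix (Fin n) (Fin n) (MonoidAlgebra F H.1))ˣ) :
        Matrix (Fin n) (Fin n) (MonoidAlgebra F H.1)) i j) =
      ∑ j, ext1 β (((1 : Matrix (Fin n) (Fin n) (MonoidAlgebra F H.1))) j j) := by
    rw [Finset.sum_comm]
    refine Finset.sum_congr rfl fun j _ => ?_
    rw [← Units.mul_inv u, Matrix.mul_apply, map_sum]
  have h4 : ∑ i, ∑ j, ext1 β (((u⁻¹ : (Matrix (Fin n) (Fin n) (MonoidAlgebra F H.1))ˣ) :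
        Matrix (Fin n) (Fin n) (MonoidAlgebra F H.1)) i j *
      (u : Matrix (Fin n) (Fin n) (MonoidAlgebra F H.1)) j i) =
      ∑ j, ext1 β (((1 : Matrix (Fin n) (Fin n) (MonoidAlgebra F H.1))) j j) := by
    refine Finset.sum_congr rfl fun j _ => ?_
    rw [← Units.inv_mul u, Matrix.mul_apply, map_sum]
  rw [h3, h4, sub_self]

open Classical in
/-- The Dennis trace vanishes on the image of the colimit over finite subgroups. -/
lemma DK_assembly {θ : G → G → F} (hθ : IsCoc θ) (x : ColimK1 F G) :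
    DK hθ (assembly F G x) = 0 := by
  obtain ⟨y, rfl⟩ := QuotientAddGroup.mk_surjective x
  show DK hθ (assemblyDS F G y) = 0
  have : (DK hθ).comp (assemblyDS F G) = 0 := by
    apply DirectSum.addHom_ext'
    intro H
    apply K1.ext
    intro n u
    show DK hθ (assemblyDS F G (DirectSum.of _ H (K1.cls u))) = 0
    rw [assemblyDS, DirectSum.toAddMonoid_of]
    exact dn_finite hθ H u
  exact DFunLike.congr_fun this y

end finite

end Pool.Agent.Lib.MPb6f35e.W2
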